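import Mathlib

/-!
# Sums of random signs, and the Taylor polynomials of `exp (i y)`
-/

set_option autoImplicit false

namespace Pool.Agent.Run7.h20.GM

open Finset

/-- the vectors of signs -/
noncomputable def Sg (m : ℕ) : Finset (Fin m → ℝ) := Fintype.piFinset fun _ => {1, -1}

lemma Sg_card (m : ℕ) : ((Sg m).card : ℝ) = 2 ^ m := by
  unfold Sg
  rw [Fintype.card_piFinset]
  have h : ({1, -1} : Finset ℝ).card = 2 := card_pair (by norm_num)
  rw [prod_congr rfl fun _ _ => h, prod_const, card_univ, Fintype.card_fin]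
  push_cast
  rfl

/-- the Taylor polynomial of degree `K - 1` -/
noncomputable def tp (K : ℕ) (y : ℝ) : ℂ := ∑ k ∈ range K, ((y : ℂ) * Complex.I) ^ k / (k.factorial : ℂ)

lemma tp_deriv (K : ℕ) (y : ℝ) : HasDerivAt (tp (K + 1)) (Complex.I * tp K y) y := by
  induction K with
  | zero =>
    have h : tp (0 + 1) = fun _ => (1 : ℂ) := by
      ext y
      simp [tp]
    rw [h]
    have h2 : Complex.I * tp 0 y = 0 := by simp [tp]
    rw [h2]
    exact hasDerivAt_const y 1
  | succ K ih =>
    have h : tp (K + 1 + 1) = fun y : ℝ => tp (K + 1) y + ((y : ℂ) * Complex.I) ^ (K + 1) / ((K + 1).factorial : ℂ) := by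
      ext y
      unfold tp
      rw [sum_range_succ _ (K + 1)]
    rw [h]
    have h2 : HasDerivAt (fun y : ℝ => ((y : ℂ) * Complex.I)) (Complex.I) y := by
      have := (Complex.ofRealCLM.hasDerivAt (x := y)).mul_const Complex.I
      simpa using this
    have h3 := (h2.pow (K + 1)).div_const ((K + 1).factorial : ℂ)
    refine (ih.add h3).congr_deriv ?_
    unfold tp
    rw [sum_range_succ _ K]
    have h5 : (K.factorial : ℂ) ≠ 0 := by exact_mod_cast K.factorial_ne_zero
    have h6 : (((K + 1 : ℕ) : ℂ)) ≠ 0 := by exact_mod_cast (by omega : K + 1 ≠ 0)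
    rw [Nat.factorial_succ]
    push_cast at h6 ⊢
    have h7 : ((K : ℂ) + 1) * ((y : ℂ) * Complex.I) ^ K * Complex.I / (((K : ℂ) + 1) * (K.factorial : ℂ)) =
        Complex.I * (((y : ℂ) * Complex.I) ^ K / (K.factorial : ℂ)) := by
      field_simp
    rw [h7]
    ring

lemma tay_nonneg (K : ℕ) (y : ℝ) (hy : 0 ≤ y) : ‖Complex.exp ((y : ℂ) * Complex.I) - tp K y‖ ≤ y ^ K / K.factorial := by
  induction K generalizing y with
  | zero =>
    have : tp 0 y = 0 := by simp [tp]
    rw [this, sub_zero, Complex.norm_exp_ofReal_mul_I]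
    simp
  | succ K ih =>
    have hder : ∀ x : ℝ, HasDerivAt (fun y : ℝ => Complex.exp ((y : ℂ) * Complex.I) - tp (K + 1) y)
        (Complex.I * (Complex.exp ((x : ℂ) * Complex.I) - tp K x)) x := by
      intro x
      have h2 : HasDerivAt (fun y : ℝ => ((y : ℂ) * Complex.I)) (Complex.I) x := by
        have := (Complex.ofRealCLM.hasDerivAt (x := x)).mul_const Complex.I
        simpa using this
      have h3 := h2.cexp
      refine (h3.sub (tp_deriv K x)).congr_deriv ?_
      ring
    have hB : ∀ x : ℝ, HasDerivAt (fun x : ℝ => x ^ (K + 1) / ((K + 1).factorial : ℝ)) (x ^ K / (K.factorial : ℝ)) x := by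
      intro x
      refine ((hasDerivAt_pow (K + 1) x).div_const ((K + 1).factorial : ℝ)).congr_deriv ?_
      rw [Nat.factorial_succ]
      push_cast
      have h5 : (K.factorial : ℝ) ≠ 0 := by exact_mod_cast K.factorial_ne_zero
      have h6 : ((K : ℝ) + 1) ≠ 0 := by positivity
      field_simp
    have h := image_norm_le_of_norm_deriv_right_le_deriv_boundary (a := 0) (b := y)
      (f := fun y : ℝ => Complex.exp ((y : ℂ) * Complex.I) - tp (K + 1) y)
      (f' := fun x => Complex.I * (Complex.exp ((x : ℂ) * Complex.I) - tp K x))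
      (B := fun x : ℝ => x ^ (K + 1) / ((K + 1).factorial : ℝ)) (B' := fun x => x ^ K / (K.factorial : ℝ))
      (fun x _ => (hder x).continuousAt.continuousWithinAt) (fun x _ => (hder x).hasDerivWithinAt) (by
        have h0 : tp (K + 1) 0 = 1 := by
          unfold tp
          rw [sum_eq_single 0]
          · simp
          · intro k _ hk
            simp [hk]
          · simp
        simp [h0]) hB (fun x hx => by
        rw [norm_mul, Complex.norm_I, one_mul]
        exact ih x hx.1)
    exact h ⟨hy, le_rfl⟩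

/-- **Taylor** -/
theorem tay (K : ℕ) (y : ℝ) : ‖Complex.exp ((y : ℂ) * Complex.I) - tp K y‖ ≤ |y| ^ K / K.factorial := by
  rcases le_or_gt 0 y with h | h
  · rw [abs_of_nonneg h]
    exact tay_nonneg K y h
  · have h1 := tay_nonneg K (-y) (by linarith)
    rw [abs_of_neg h]
    refine le_trans (le_of_eq ?_) h1
    rw [← Complex.norm_conj]
    congr 1
    rw [map_sub, ← Complex.exp_conj]
    unfold tp
    rw [map_sum]
    have e1 : (starRingEnd ℂ) ((y : ℂ) * Complex.I) = ((-y : ℝ) : ℂ) * Complex.I := by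
      rw [map_mul, Complex.conj_ofReal, Complex.conj_I]
      push_cast
      ring
    rw [e1]
    congr 1
    apply sum_congr rfl
    intro k _
    rw [map_div₀, map_pow, e1, Complex.conj_natCast]

/-- products over the coordinates -/
lemma sum_prod (m : ℕ) {R : Type} [CommSemiring R] (g : Fin m → ℝ → R) :
    ∑ e ∈ Sg m, ∏ i, g i (e i) = ∏ i, (g i 1 + g i (-1)) := by
  classical
  unfold Sg
  rw [← prod_univ_sum]
  apply prod_congr rfl
  intro i _
  rw [sum_pair (by norm_num)]

/-- the number of the nonzero entries -/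
noncomputable def cnt {m : ℕ} (a : Fin m → ℝ) : ℕ := (univ.filter (fun i => a i ≠ 0)).card

lemma prod_cnt {m : ℕ} {R : Type} [CommMonoid R] (a : Fin m → ℝ) (c : R) (g : Fin m → R)
    (h1 : ∀ i, a i ≠ 0 → g i = c) (h2 : ∀ i, a i = 0 → g i = 1) : ∏ i, g i = c ^ cnt a := by
  classical
  unfold cnt
  rw [← prod_const, prod_filter]
  apply prod_congr rfl
  intro i _
  split_ifs with h
  · exact h1 i h
  · exact h2 i (not_not.1 h)

/-- the characteristic function of a sum of random signs -/
lemma sg_cos {m : ℕ} (a : Fin m → ℝ) (ha : ∀ i, a i = -1 ∨ a i = 0 ∨ a i = 1) (θ : ℝ) :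
    ∑ e ∈ Sg m, Complex.exp (((θ * ∑ i, e i * a i : ℝ) : ℂ) * Complex.I) = 2 ^ m * ((Real.cos θ ^ cnt a : ℝ) : ℂ) := by
  have h1 : ∀ e ∈ Sg m, Complex.exp (((θ * ∑ i, e i * a i : ℝ) : ℂ) * Complex.I) =
      ∏ i, Complex.exp (((e i * (θ * a i) : ℝ) : ℂ) * Complex.I) := by
    intro e _
    rw [← Complex.exp_sum]
    congr 1
    push_cast
    rw [mul_sum, sum_mul]
    apply sum_congr rfl
    intro i _
    ring
  rw [sum_congr rfl h1, sum_prod m (fun i x => Complex.exp (((x * (θ * a i) : ℝ) : ℂ) * Complex.I))]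
  have h2 : ∀ i, Complex.exp (((1 * (θ * a i) : ℝ) : ℂ) * Complex.I) + Complex.exp (((-1 * (θ * a i) : ℝ) : ℂ) * Complex.I) =
      2 * (if a i = 0 then 1 else ((Real.cos θ : ℝ) : ℂ)) := by
    intro i
    have e1 : Complex.exp (((1 * (θ * a i) : ℝ) : ℂ) * Complex.I) + Complex.exp (((-1 * (θ * a i) : ℝ) : ℂ) * Complex.I) =
        2 * Complex.cos ((θ * a i : ℝ) : ℂ) := by
      rw [Complex.cos]
      push_cast
      ring_nf
    rw [e1]
    rcases ha i with h | h | h
    · rw [h]
      simp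
    · rw [h]
      simp
    · rw [h]
      simp
  rw [prod_congr rfl fun i _ => h2 i, prod_mul_distrib, prod_const, card_univ, Fintype.card_fin]
  congr 1
  rw [prod_cnt a ((Real.cos θ : ℝ) : ℂ) _ (fun i h => by rw [if_neg h]) (fun i h => by rw [if_pos h])]
  push_cast
  rfl

/-- the even moments of a sum of random signs -/
lemma sg_mom {m : ℕ} (a : Fin m → ℝ) (ha : ∀ i, a i = -1 ∨ a i = 0 ∨ a i = 1) (l : ℝ) (K : ℕ) :
    ∑ e ∈ Sg m, |l * ∑ i, e i * a i| ^ K / K.factorial ≤ 2 * 2 ^ m * Real.exp (l ^ 2 / 2 * cnt a) := by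
  have h0 : ∀ s : ℝ, s ^ 2 = 1 → ∑ e ∈ Sg m, Real.exp (s * (l * ∑ i, e i * a i)) ≤ 2 ^ m * Real.exp (l ^ 2 / 2 * cnt a) := by
    intro s hs
    have h1 : ∀ e ∈ Sg m, Real.exp (s * (l * ∑ i, e i * a i)) = ∏ i, Real.exp (e i * (s * l * a i)) := by
      intro e _
      rw [← Real.exp_sum]
      congr 1
      rw [mul_sum, mul_sum]
      apply sum_congr rfl
      intro i _
      ring
    rw [sum_congr rfl h1, sum_prod m (fun i x => Real.exp (x * (s * l * a i)))]
    have h2 : ∀ i, Real.exp (1 * (s * l * a i)) + Real.exp (-1 * (s * l * a i)) ≤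
        2 * (if a i = 0 then 1 else Real.exp (l ^ 2 / 2)) := by
      intro i
      have e1 : Real.exp (1 * (s * l * a i)) + Real.exp (-1 * (s * l * a i)) = 2 * Real.cosh (s * l * a i) := by
        rw [Real.cosh_eq]
        ring_nf
      rw [e1]
      apply mul_le_mul_of_nonneg_left _ (by norm_num)
      have e2 := Real.cosh_le_exp_half_sq (s * l * a i)
      refine e2.trans ?_
      split_ifs with h
      · rw [h]
        simp
      · apply Real.exp_le_exp.2
        have h3 : (a i) ^ 2 = 1 := by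
          rcases ha i with h4 | h4 | h4
          · rw [h4]; norm_num
          · exact absurd h4 h
          · rw [h4]; norm_num
        have h5 : (s * l * a i) ^ 2 = l ^ 2 := by
          rw [mul_pow, mul_pow, hs, h3]
          ring
        rw [h5]
    refine (prod_le_prod (fun i _ => by positivity) fun i _ => h2 i).trans ?_
    rw [prod_mul_distrib, prod_const, card_univ, Fintype.card_fin]
    apply mul_le_mul_of_nonneg_left _ (by positivity)
    rw [prod_cnt a (Real.exp (l ^ 2 / 2)) _ (fun i h => by rw [if_neg h]) (fun i h => by rw [if_pos h]), ← Real.exp_nat_mul]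
    apply Real.exp_le_exp.2
    linarith
  have h1 := h0 1 (by norm_num)
  have h2 := h0 (-1) (by norm_num)
  have h3 : ∀ e ∈ Sg m, |l * ∑ i, e i * a i| ^ K / K.factorial ≤
      Real.exp (1 * (l * ∑ i, e i * a i)) + Real.exp (-1 * (l * ∑ i, e i * a i)) := by
    intro e _
    obtain ⟨y, hy⟩ : ∃ y, y = l * ∑ i, e i * a i := ⟨_, rfl⟩
    rw [← hy]
    refine (Real.pow_div_factorial_le_exp _ (abs_nonneg y) K).trans ?_
    rcases le_or_gt 0 y with h | h
    · rw [abs_of_nonneg h]
      have := Real.exp_pos (-1 * y)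
      rw [one_mul]
      linarith
    · rw [abs_of_neg h]
      have := Real.exp_pos (1 * y)
      have e : -1 * y = -y := by ring
      rw [e]
      linarith
  refine (sum_le_sum h3).trans ?_
  rw [sum_add_distrib]
  linarith

/-- the vectors of indices in which some index has odd multiplicity -/
def OddV {k m : ℕ} (j : Fin k → Fin m) : Prop := ∃ i, Odd (univ.filter (fun l => j l = i)).card

lemma prod_mult {k m : ℕ} {R : Type} [CommMonoid R] (j : Fin k → Fin m) (x : Fin m → R) :
    ∏ l, x (j l) = ∏ i, x i ^ (univ.filter (fun l => j l = i)).card := by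
  classical
  rw [← prod_fiberwise' univ j x]
  apply prod_congr rfl
  intro i _
  rw [prod_const]

open Classical in
/-- the powers of a sum and the powers of the sums with random signs -/
lemma sg_pow {m : ℕ} (a : Fin m → ℝ) (k : ℕ) :
    (∑ i, a i) ^ k - (∑ e ∈ Sg m, (∑ i, e i * a i) ^ k) / 2 ^ m =
      ∑ j ∈ univ.filter (fun j : Fin k → Fin m => OddV j), ∏ l, a (j l) := by
  have h1 : ∑ e ∈ Sg m, (∑ i, e i * a i) ^ k =
      ∑ j : Fin k → Fin m, (if OddV j then 0 else 2 ^ m) * ∏ l, a (j l) := by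
    have h2 : ∀ e ∈ Sg m, (∑ i, e i * a i) ^ k = ∑ j : Fin k → Fin m, (∏ l, e (j l)) * ∏ l, a (j l) := by
      intro e _
      rw [Fintype.sum_pow]
      apply sum_congr rfl
      intro j _
      rw [prod_mul_distrib]
    rw [sum_congr rfl h2, sum_comm]
    apply sum_congr rfl
    intro j _
    rw [← sum_mul]
    congr 1
    have h3 : ∀ e ∈ Sg m, ∏ l, e (j l) = ∏ i, (fun (i : Fin m) (x : ℝ) => x ^ (univ.filter (fun l => j l = i)).card) i (e i) :=
      fun e _ => prod_mult j e
    rw [sum_congr rfl h3, sum_prod m (fun (i : Fin m) (x : ℝ) => x ^ (univ.filter (fun l => j l = i)).card)]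
    split_ifs with h
    · obtain ⟨i, hi⟩ := h
      apply prod_eq_zero (mem_univ i)
      rw [one_pow, hi.neg_one_pow]
      ring
    · have h4 : ∀ i : Fin m, (1 : ℝ) ^ (univ.filter (fun l => j l = i)).card + (-1) ^ (univ.filter (fun l => j l = i)).card = 2 := by
        intro i
        have h5 : Even (univ.filter (fun l => j l = i)).card := by
          rw [← Nat.not_odd_iff_even]
          intro h6
          exact h ⟨i, h6⟩
        rw [one_pow, h5.neg_one_pow]
        norm_num
      rw [prod_congr rfl fun i _ => h4 i, prod_const, card_univ, Fintype.card_fin]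
  have h2 : (∑ i, a i) ^ k = ∑ j : Fin k → Fin m, ∏ l, a (j l) := Fintype.sum_pow _ _
  rw [h1, h2, sum_div, ← sum_sub_distrib, sum_filter]
  apply sum_congr rfl
  intro j _
  split_ifs
  · rw [zero_mul, zero_div, sub_zero]
  · field_simp
    ring

/-- `cos ^ Q` and the Gaussian -/
lemma cos_gauss (θ : ℝ) (hθ : |θ| ≤ 1) (Q : ℕ) : |Real.cos θ ^ Q - Real.exp (-(θ ^ 2 / 2) * Q)| ≤ Q * θ ^ 4 := by
  have h1 : |Real.cos θ - Real.exp (-(θ ^ 2 / 2))| ≤ θ ^ 4 := by
    have e1 := Real.cos_bound hθ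
    have e2 : |Real.exp (-(θ ^ 2 / 2)) - 1 - (-(θ ^ 2 / 2))| ≤ (-(θ ^ 2 / 2)) ^ 2 := by
      apply Real.abs_exp_sub_one_sub_id_le
      rw [abs_neg, abs_of_nonneg (by positivity)]
      have : θ ^ 2 ≤ 1 := by rw [← sq_abs]; exact pow_le_one₀ (abs_nonneg _) hθ
      linarith
    have e3 : |θ| ^ 4 = θ ^ 4 := by rw [← abs_pow]; exact abs_of_nonneg (by positivity)
    rw [e3] at e1
    have e4 : 0 ≤ θ ^ 4 := by positivity
    rw [abs_le] at e1 e2 ⊢
    constructor <;> nlinarith
  have h2 : Real.exp (-(θ ^ 2 / 2) * Q) = Real.exp (-(θ ^ 2 / 2)) ^ Q := by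
    rw [← Real.exp_nat_mul]
    congr 1
    ring
  rw [h2]
  have h3 : |Real.cos θ| ≤ 1 := Real.abs_cos_le_one θ
  have h4 : |Real.exp (-(θ ^ 2 / 2))| ≤ 1 := by
    rw [abs_of_pos (Real.exp_pos _), Real.exp_le_one_iff]
    have : 0 ≤ θ ^ 2 := sq_nonneg θ
    linarith
  have h5 : ∀ (a b : ℝ), |a| ≤ 1 → |b| ≤ 1 → ∀ Q : ℕ, |a ^ Q - b ^ Q| ≤ Q * |a - b| := by
    intro a b ha hb Q
    induction Q with
    | zero => simp
    | succ Q ih =>
      have e : a ^ (Q + 1) - b ^ (Q + 1) = a * (a ^ Q - b ^ Q) + (a - b) * b ^ Q := by ring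
      rw [e]
      refine (abs_add_le _ _).trans ?_
      rw [abs_mul, abs_mul, abs_pow]
      have e1 : |a| * |a ^ Q - b ^ Q| ≤ 1 * (Q * |a - b|) := mul_le_mul ha ih (abs_nonneg _) (by norm_num)
      have e2 : |a - b| * |b| ^ Q ≤ |a - b| * 1 :=
        mul_le_mul_of_nonneg_left (pow_le_one₀ (abs_nonneg _) hb) (abs_nonneg _)
      push_cast
      linarith
  exact (h5 _ _ h3 h4 Q).trans (mul_le_mul_of_nonneg_left h1 (Nat.cast_nonneg _))

end Pool.Agent.Run7.h20.GM
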