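import Pool.Agent.Run7.h20.CE.Tup
import Pool.Agent.Run7.h20.GM.Sgn

/-!
# Odd correlations along almost all tuples of members of a family
-/

set_option autoImplicit false

namespace Pool.Agent.Run7.h20.GM

open Finset
open Pool.Agent.Run7.h20.CE (swap_sum)

/-- the values along a tuple -/
def av (F : ℤ → ℝ) {ι : Type} (y : ι → ℤ) {m : ℕ} (s : Fin m → ι) (n : ℕ) : Fin m → ℝ := fun i => F ((n : ℤ) + y (s i))

lemma av_update (F : ℤ → ℝ) {ι : Type} (y : ι → ℤ) {m : ℕ} (s : Fin m → ι) (i₀ : Fin m) (t : ι) (n : ℕ) :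
    av F y (Function.update s i₀ t) n = Function.update (av F y s n) i₀ (F ((n : ℤ) + y t)) := by
  funext i
  unfold av
  by_cases h : i = i₀
  · subst h
    simp
  · rw [Function.update_of_ne h, Function.update_of_ne h]

lemma cnt_update {m : ℕ} (a : Fin m → ℝ) (i₀ : Fin m) (f : ℝ) (hf : f ≠ 0) :
    cnt (Function.update a i₀ f) = 1 + ((univ.erase i₀).filter (fun i => a i ≠ 0)).card := by
  classical
  unfold cnt
  have h : univ.filter (fun i => Function.update a i₀ f i ≠ 0) =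
      insert i₀ ((univ.erase i₀).filter (fun i => a i ≠ 0)) := by
    ext i
    simp only [mem_filter, mem_univ, true_and, mem_insert, mem_erase, ne_eq, and_true]
    by_cases hi : i = i₀
    · subst hi
      simp [hf]
    · rw [Function.update_of_ne hi]
      simp [hi]
  rw [h, card_insert_of_notMem (by simp), add_comm]

/-- one vector of indices -/
lemma odd_avg (F : ℤ → ℝ) (hF : ∀ x, F x = -1 ∨ F x = 0 ∨ F x = 1) {ι : Type} (S : Finset ι) (hS : S.Nonempty) (y : ι → ℤ)
    (N m : ℕ) (δ : ℝ) (hlaw : ∀ G : ℕ → ℝ, (∀ n ∈ Icc 1 N, |G n| ≤ 1) →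
      ∑ s ∈ S, |∑ n ∈ Icc 1 N, G n * F ((n : ℤ) + y s)| ≤ δ * N * S.card)
    (w : ℕ → ℝ) (hw : ∀ q, |w q| ≤ 1) {k : ℕ} (j : Fin k → Fin m) (hj : OddV j) :
    ∑ s ∈ Fintype.piFinset (fun _ : Fin m => S), |∑ n ∈ Icc 1 N, w (cnt (av F y s n)) * ∏ l, av F y s n (j l)| ≤
      δ * N * (S.card : ℝ) ^ m := by
  classical
  obtain ⟨i₀, hi₀⟩ := hj
  obtain ⟨c, hc⟩ : ∃ c : Fin m → ℕ, ∀ i, c i = (univ.filter (fun l => j l = i)).card := ⟨_, fun _ => rfl⟩
  have hc0 : (0 : ℝ) < S.card := by exact_mod_cast hS.card_pos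
  have h1 := swap_sum (fun _ : Fin m => S) i₀
    (fun s => |∑ n ∈ Icc 1 N, w (cnt (av F y s n)) * ∏ l, av F y s n (j l)|)
  have hab : ∀ x, |F x| ≤ 1 := by
    intro x
    rcases hF x with h | h | h
    · rw [h]; norm_num
    · rw [h]; norm_num
    · rw [h]; norm_num
  have h2 : ∀ s ∈ Fintype.piFinset (fun _ : Fin m => S),
      ∑ t ∈ S, |∑ n ∈ Icc 1 N, w (cnt (av F y (Function.update s i₀ t) n)) *
        ∏ l, av F y (Function.update s i₀ t) n (j l)| ≤ δ * N * S.card := by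
    intro s _
    refine le_trans (le_of_eq ?_) (hlaw (fun n => w (1 + ((univ.erase i₀).filter (fun i => av F y s n i ≠ 0)).card) *
      ∏ i ∈ univ.erase i₀, av F y s n i ^ c i) ?_)
    · apply sum_congr rfl
      intro t _
      congr 1
      apply sum_congr rfl
      intro n _
      rw [av_update, prod_mult j, ← mul_prod_erase univ _ (mem_univ i₀), Function.update_self]
      have e1 : ∏ i ∈ univ.erase i₀, Function.update (av F y s n) i₀ (F ((n : ℤ) + y t)) i ^
          (univ.filter (fun l => j l = i)).card = ∏ i ∈ univ.erase i₀, av F y s n i ^ c i := by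
        apply prod_congr rfl
        intro i hi
        rw [Function.update_of_ne (ne_of_mem_erase hi), hc]
      rw [e1]
      have e2 : F ((n : ℤ) + y t) ^ (univ.filter (fun l => j l = i₀)).card = F ((n : ℤ) + y t) := by
        rcases hF ((n : ℤ) + y t) with h | h | h
        · rw [h, hi₀.neg_one_pow]
        · rw [h, zero_pow hi₀.pos.ne']
        · rw [h, one_pow]
      rw [e2]
      by_cases hf : F ((n : ℤ) + y t) = 0
      · rw [hf]
        ring
      · rw [cnt_update _ _ _ hf]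
        ring
    · intro n _
      rw [abs_mul, abs_prod]
      have e1 : ∏ i ∈ univ.erase i₀, |av F y s n i ^ c i| ≤ 1 := by
        apply prod_le_one (fun _ _ => abs_nonneg _)
        intro i _
        rw [abs_pow]
        exact pow_le_one₀ (abs_nonneg _) (hab _)
      calc _ ≤ 1 * (1 : ℝ) := mul_le_mul (hw _) e1 (prod_nonneg fun _ _ => abs_nonneg _) (by norm_num)
        _ = 1 := one_mul _
  have h3 := sum_le_sum h2
  rw [sum_const, nsmul_eq_mul, Fintype.card_piFinset, prod_const, card_univ, Fintype.card_fin] at h3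
  push_cast at h3
  have h4 : (S.card : ℝ) * ∑ s ∈ Fintype.piFinset (fun _ : Fin m => S),
      |∑ n ∈ Icc 1 N, w (cnt (av F y s n)) * ∏ l, av F y s n (j l)| ≤ S.card * (δ * N * (S.card : ℝ) ^ m) := by
    rw [← h1]
    refine h3.trans (le_of_eq ?_)
    ring
  exact le_of_mul_le_mul_left h4 hc0

open Classical in
/-- **the exceptional tuples** -/
theorem exc (F : ℤ → ℝ) (hF : ∀ x, F x = -1 ∨ F x = 0 ∨ F x = 1) {ι : Type} (S : Finset ι) (hS : S.Nonempty) (y : ι → ℤ)
    (N m : ℕ) (hN : 1 ≤ N) (hm : 1 ≤ m) (δ : ℝ) (hδ : 0 ≤ δ) (hlaw : ∀ G : ℕ → ℝ, (∀ n ∈ Icc 1 N, |G n| ≤ 1) →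
      ∑ s ∈ S, |∑ n ∈ Icc 1 N, G n * F ((n : ℤ) + y s)| ≤ δ * N * S.card)
    (K : ℕ) (η : ℝ) (hη : 0 < η) (w : ℕ → ℕ → ℝ) (hw : ∀ k q, |w k q| ≤ 1) :
    (((Fintype.piFinset (fun _ : Fin m => S)).filter (fun s => ∃ k ≤ K, η * N <
      ∑ j ∈ univ.filter (fun j : Fin k → Fin m => OddV j),
        |∑ n ∈ Icc 1 N, w k (cnt (av F y s n)) * ∏ l, av F y s n (j l)|)).card : ℝ) ≤
      (K + 1) * (m : ℝ) ^ K * (δ / η) * (S.card : ℝ) ^ m := by
  have hN0 : (0 : ℝ) < N := by exact_mod_cast hN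
  have hm1 : (1 : ℝ) ≤ m := by exact_mod_cast hm
  obtain ⟨H, hH⟩ : ∃ H : ℕ → (Fin m → ι) → ℝ, ∀ k s, H k s = ∑ j ∈ univ.filter (fun j : Fin k → Fin m => OddV j),
      |∑ n ∈ Icc 1 N, w k (cnt (av F y s n)) * ∏ l, av F y s n (j l)| := ⟨_, fun _ _ => rfl⟩
  simp_rw [← hH]
  have h1 : ∀ k ≤ K, ∑ s ∈ Fintype.piFinset (fun _ : Fin m => S), H k s ≤ (m : ℝ) ^ K * (δ * N * (S.card : ℝ) ^ m) := by
    intro k hk
    simp_rw [hH]
    rw [sum_comm]
    refine (sum_le_sum fun j hj => odd_avg F hF S hS y N m δ hlaw (w k) (hw k) j (mem_filter.1 hj).2).trans ?_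
    rw [sum_const, nsmul_eq_mul]
    apply mul_le_mul_of_nonneg_right _ (by positivity)
    have e1 := card_filter_le (univ : Finset (Fin k → Fin m)) (fun j => OddV j)
    rw [card_univ, Fintype.card_fun, Fintype.card_fin, Fintype.card_fin] at e1
    have e2 : ((univ.filter (fun j : Fin k → Fin m => OddV j)).card : ℝ) ≤ (m : ℝ) ^ k := by exact_mod_cast e1
    exact e2.trans (pow_le_pow_right₀ hm1 hk)
  have h2 : ∀ k ≤ K, (((Fintype.piFinset (fun _ : Fin m => S)).filter (fun s => η * N < H k s)).card : ℝ) ≤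
      (m : ℝ) ^ K * (δ / η) * (S.card : ℝ) ^ m := by
    intro k hk
    have e1 : (((Fintype.piFinset (fun _ : Fin m => S)).filter (fun s => η * N < H k s)).card : ℝ) * (η * N) ≤
        ∑ s ∈ Fintype.piFinset (fun _ : Fin m => S), H k s := by
      rw [← nsmul_eq_mul, ← sum_const]
      refine (sum_le_sum fun s hs => (mem_filter.1 hs).2.le).trans ?_
      apply sum_le_sum_of_subset_of_nonneg (filter_subset _ _)
      intro s _ _
      rw [hH]
      exact sum_nonneg fun _ _ => abs_nonneg _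
    have e2 := e1.trans (h1 k hk)
    rw [← le_div_iff₀ (by positivity)] at e2
    refine e2.trans (le_of_eq ?_)
    field_simp
  have h3 : (Fintype.piFinset (fun _ : Fin m => S)).filter (fun s => ∃ k ≤ K, η * N < H k s) ⊆
      (range (K + 1)).biUnion (fun k => (Fintype.piFinset (fun _ : Fin m => S)).filter (fun s => η * N < H k s)) := by
    intro s hs
    rw [mem_filter] at hs
    obtain ⟨hs1, k, hk, hs2⟩ := hs
    rw [mem_biUnion]
    exact ⟨k, mem_range.2 (by omega), mem_filter.2 ⟨hs1, hs2⟩⟩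
  have h4 : (((Fintype.piFinset (fun _ : Fin m => S)).filter (fun s => ∃ k ≤ K, η * N < H k s)).card : ℝ) ≤
      ∑ k ∈ range (K + 1), (((Fintype.piFinset (fun _ : Fin m => S)).filter (fun s => η * N < H k s)).card : ℝ) := by
    exact_mod_cast (card_le_card h3).trans card_biUnion_le
  refine h4.trans ((sum_le_sum fun k hk => h2 k (by have := mem_range.1 hk; omega)).trans ?_)
  rw [sum_const, card_range, nsmul_eq_mul]
  push_cast
  apply le_of_eq
  ring

end Pool.Agent.Run7.h20.GM
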