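import Pool.Agent.Run7.h20.GM.Law
import Pool.Agent.Run7.h20.GM.Exc
import Pool.Agent.Run7.h794.MK.Sqf

/-!
# The number of squarefree integers along almost all tuples of members of a set which is equidistributed modulo small squares
-/

set_option autoImplicit false

namespace Pool.Agent.Run7.h20.GM

open Finset
open Pool.Agent.Run7.h794.MK (mob mobsq mob_tail mob_abs')
open Pool.Agent.Run7.h27.MK (gI)
open Pool.Agent.Run7.h20.CE (swap_sum)

lemma cnt_sq {m : ℕ} (a : Fin m → ℝ) (ha : ∀ i, a i = -1 ∨ a i = 0 ∨ a i = 1) : (cnt a : ℝ) = ∑ i, a i ^ 2 := by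
  classical
  unfold cnt
  rw [card_filter]
  push_cast
  apply sum_congr rfl
  intro i _
  rcases ha i with h | h | h
  · rw [h]; norm_num
  · rw [h]; norm_num
  · rw [h]; norm_num

/-- the variance -/
lemma var_le {ι : Type} (S : Finset ι) (hS : S.Nonempty) (m : ℕ) (q : ι → ℝ) (hq : ∀ s ∈ S, 0 ≤ q s ∧ q s ≤ 1) :
    ∑ s ∈ Fintype.piFinset (fun _ : Fin m => S), |∑ i, q (s i) - m * ((∑ s ∈ S, q s) / S.card)| ≤
      √(m : ℝ) * (S.card : ℝ) ^ m := by
  classical
  have hc0 : (0 : ℝ) < S.card := by exact_mod_cast hS.card_pos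
  obtain ⟨α, hα⟩ : ∃ α, α = (∑ s ∈ S, q s) / S.card := ⟨_, rfl⟩
  have hα0 : 0 ≤ α := by
    rw [hα]
    exact div_nonneg (sum_nonneg fun s hs => (hq s hs).1) hc0.le
  have hα1 : α ≤ 1 := by
    rw [hα, div_le_one hc0]
    calc ∑ s ∈ S, q s ≤ ∑ s ∈ S, (1 : ℝ) := sum_le_sum fun s hs => (hq s hs).2
      _ = S.card := by rw [sum_const, nsmul_eq_mul, mul_one]
  obtain ⟨y, hy⟩ : ∃ y : ι → ℝ, ∀ s, y s = q s - α := ⟨_, fun _ => rfl⟩
  have hy0 : ∑ s ∈ S, y s = 0 := by
    simp_rw [hy]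
    rw [sum_sub_distrib, sum_const, nsmul_eq_mul, hα]
    field_simp
    ring
  have hy1 : ∀ s ∈ S, y s ^ 2 ≤ 1 := by
    intro s hs
    rw [hy, sq_le_one_iff_abs_le_one, abs_le]
    have := hq s hs
    constructor <;> linarith
  have hcard : ((Fintype.piFinset (fun _ : Fin m => S)).card : ℝ) = (S.card : ℝ) ^ m := by
    rw [Fintype.card_piFinset, prod_const, card_univ, Fintype.card_fin]
    push_cast
    rfl
  -- second moment
  have h2 : ∑ s ∈ Fintype.piFinset (fun _ : Fin m => S), (∑ i, y (s i)) ^ 2 ≤ m * (S.card : ℝ) ^ m := by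
    have e1 : ∀ s ∈ Fintype.piFinset (fun _ : Fin m => S), (∑ i, y (s i)) ^ 2 = ∑ i, ∑ i', y (s i) * y (s i') := by
      intro s _
      rw [pow_two, sum_mul_sum]
    rw [sum_congr rfl e1, sum_comm]
    have e2 : ∀ i ∈ (univ : Finset (Fin m)), ∑ s ∈ Fintype.piFinset (fun _ : Fin m => S), ∑ i', y (s i) * y (s i') ≤
        (S.card : ℝ) ^ m := by
      intro i _
      rw [sum_comm, ← add_sum_erase univ _ (mem_univ i)]
      have e3 : ∀ i' ∈ univ.erase i, ∑ s ∈ Fintype.piFinset (fun _ : Fin m => S), y (s i) * y (s i') = 0 := by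
        intro i' hi'
        have hne := ne_of_mem_erase hi'
        have e4 := swap_sum (fun _ : Fin m => S) i (fun s => y (s i) * y (s i'))
        have e5 : ∀ s ∈ Fintype.piFinset (fun _ : Fin m => S), ∑ t ∈ S, y ((Function.update s i t) i) *
            y ((Function.update s i t) i') = 0 := by
          intro s _
          have e6 : ∀ t ∈ S, y ((Function.update s i t) i) * y ((Function.update s i t) i') = y t * y (s i') := by
            intro t _
            rw [Function.update_self, Function.update_of_ne hne]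
          rw [sum_congr rfl e6, ← sum_mul, hy0, zero_mul]
        rw [sum_congr rfl e5, sum_const_zero] at e4
        rcases mul_eq_zero.1 e4.symm with h | h
        · exact absurd h hc0.ne'
        · exact h
      rw [sum_congr rfl e3, sum_const_zero, add_zero, ← hcard, ← mul_one ((Fintype.piFinset (fun _ : Fin m => S)).card : ℝ),
        ← nsmul_eq_mul, ← sum_const]
      apply sum_le_sum
      intro s hs
      rw [Fintype.mem_piFinset] at hs
      rw [← pow_two]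
      exact hy1 _ (hs i)
    refine (sum_le_sum e2).trans (le_of_eq ?_)
    rw [sum_const, card_univ, Fintype.card_fin, nsmul_eq_mul]
  have h1 : ∀ s : Fin m → ι, ∑ i, q (s i) - m * ((∑ s ∈ S, q s) / S.card) = ∑ i, y (s i) := by
    intro s
    simp_rw [hy]
    rw [sum_sub_distrib, sum_const, card_univ, Fintype.card_fin, nsmul_eq_mul, ← hα]
  simp_rw [h1]
  have h3 := sq_sum_le_card_mul_sum_sq (s := Fintype.piFinset (fun _ : Fin m => S)) (f := fun s => |∑ i, y (s i)|)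
  simp only [sq_abs] at h3
  rw [hcard] at h3
  have h4 : (∑ s ∈ Fintype.piFinset (fun _ : Fin m => S), |∑ i, y (s i)|) ^ 2 ≤ (√(m : ℝ) * (S.card : ℝ) ^ m) ^ 2 := by
    rw [mul_pow, Real.sq_sqrt (Nat.cast_nonneg m)]
    calc _ ≤ (S.card : ℝ) ^ m * ∑ s ∈ Fintype.piFinset (fun _ : Fin m => S), (∑ i, y (s i)) ^ 2 := h3
      _ ≤ (S.card : ℝ) ^ m * (m * (S.card : ℝ) ^ m) := mul_le_mul_of_nonneg_left h2 (by positivity)
      _ = _ := by ring
  exact le_of_sq_le_sq h4 (by positivity)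

/-- equidistribution modulo the squares up to `D ^ 2` -/
def Equi (D : ℕ) (κ : ℝ) (S : Finset ℕ) : Prop := ∀ d : ℕ, 1 ≤ d → d ≤ D → ∀ c : ℕ,
  |((S.filter (fun s => d ^ 2 ∣ c + s)).card : ℝ) - S.card / (d : ℝ) ^ 2| ≤ κ * S.card

lemma mobI_sq (n s : ℕ) (hn : 1 ≤ n) : mobI ((n : ℤ) + (s : ℤ)) ^ 2 = mob (n + s) ^ 2 := by
  unfold mobI gI
  rw [if_pos (by omega)]
  congr 2

/-- the proportion of the squarefree integers -/
lemma alpha_le (D B N : ℕ) (κ : ℝ) (hD : 1 ≤ D) (hN : 1 ≤ N) (S : Finset ℕ) (hS : S.Nonempty)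
    (hSB : ∀ s ∈ S, s ≤ B * N) (hE : Equi D κ S) :
    ∑ n ∈ Icc 1 N, |(∑ s ∈ S, mobI ((n : ℤ) + (s : ℤ)) ^ 2) / S.card - 6 / Real.pi ^ 2| ≤
      N * (D * κ + 2 / D) + (D + √((B + 1) * N : ℝ)) := by
  classical
  have hc0 : (0 : ℝ) < S.card := by exact_mod_cast hS.card_pos
  have hN0 : (0 : ℝ) < N := by exact_mod_cast hN
  have hD0 : (0 : ℝ) < D := by exact_mod_cast hD
  obtain ⟨c, hc⟩ : ∃ c : ℝ, c = 6 / Real.pi ^ 2 := ⟨_, rfl⟩
  obtain ⟨D₁, hD₁⟩ : ∃ D₁, D₁ = D + Nat.sqrt ((B + 1) * N) := ⟨_, rfl⟩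
  have hD₁a : (D₁ : ℝ) ≤ D + √((B + 1) * N : ℝ) := by
    rw [hD₁]
    push_cast
    have h1 : ((Nat.sqrt ((B + 1) * N) : ℕ) : ℝ) ≤ √((((B + 1) * N : ℕ)) : ℝ) := Real.nat_sqrt_le_real_sqrt
    push_cast at h1
    linarith
  have hDD : D ≤ D₁ := by omega
  have hbig : ∀ n ∈ Icc 1 N, ∀ s ∈ S, n + s < (D₁ + 1) ^ 2 := by
    intro n hn s hs
    rw [mem_Icc] at hn
    have h1 : n + s ≤ (B + 1) * N := by
      have := hSB s hs
      calc n + s ≤ N + B * N := by omega
        _ = (B + 1) * N := by ring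
    have h2 := Nat.lt_succ_sqrt' ((B + 1) * N)
    calc n + s ≤ (B + 1) * N := h1
      _ < (Nat.sqrt ((B + 1) * N) + 1) ^ 2 := h2
      _ ≤ (D₁ + 1) ^ 2 := Nat.pow_le_pow_left (by omega) 2
  rw [← hc]
  have hpt : ∀ n ∈ Icc 1 N, |(∑ s ∈ S, mobI ((n : ℤ) + (s : ℤ)) ^ 2) / S.card - c| ≤
      (D * κ + 1 / D) + (1 / (S.card : ℝ)) * ∑ s ∈ S, ∑ d ∈ Ioc D D₁, (if d ^ 2 ∣ n + s then (1 : ℝ) else 0) := by
    intro n hn
    have hn1 := (mem_Icc.1 hn).1
    have e1 : ∀ s ∈ S, mobI ((n : ℤ) + (s : ℤ)) ^ 2 = ∑ d ∈ Icc 1 D, mob d * (if d ^ 2 ∣ n + s then (1 : ℝ) else 0) +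
        ∑ d ∈ Ioc D D₁, mob d * (if d ^ 2 ∣ n + s then (1 : ℝ) else 0) := by
      intro s hs
      rw [mobI_sq n s hn1, ← mobsq (show 1 ≤ n + s by omega) (hbig n hn s hs), sum_filter]
      have e2 : Icc 1 D₁ = Icc 1 D ∪ Ioc D D₁ := by
        ext d
        simp only [mem_union, mem_Icc, mem_Ioc]
        omega
      have e3 : Disjoint (Icc 1 D) (Ioc D D₁) := by
        rw [disjoint_left]
        intro d h4 h5
        rw [mem_Icc] at h4
        rw [mem_Ioc] at h5
        omega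
      rw [e2, sum_union e3]
      simp only [mul_ite, mul_one, mul_zero]
    have e2 : (∑ s ∈ S, mobI ((n : ℤ) + (s : ℤ)) ^ 2) / S.card - c =
        (∑ d ∈ Icc 1 D, mob d * (((S.filter (fun s => d ^ 2 ∣ n + s)).card : ℝ) - S.card / (d : ℝ) ^ 2)) / S.card +
        (∑ d ∈ Icc 1 D, mob d * (1 / (d : ℝ) ^ 2) - c) +
        (1 / (S.card : ℝ)) * ∑ s ∈ S, ∑ d ∈ Ioc D D₁, mob d * (if d ^ 2 ∣ n + s then (1 : ℝ) else 0) := by
      rw [sum_congr rfl e1, sum_add_distrib, sum_comm (s := S) (t := Icc 1 D)]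
      have e3 : ∀ d ∈ Icc 1 D, ∑ s ∈ S, mob d * (if d ^ 2 ∣ n + s then (1 : ℝ) else 0) =
          mob d * ((S.filter (fun s => d ^ 2 ∣ n + s)).card : ℝ) := by
        intro d _
        rw [← mul_sum, card_filter]
        push_cast
        rfl
      rw [sum_congr rfl e3]
      have e4 : ∑ d ∈ Icc 1 D, mob d * (((S.filter (fun s => d ^ 2 ∣ n + s)).card : ℝ) - S.card / (d : ℝ) ^ 2) =
          ∑ d ∈ Icc 1 D, mob d * ((S.filter (fun s => d ^ 2 ∣ n + s)).card : ℝ) -
          S.card * ∑ d ∈ Icc 1 D, mob d * (1 / (d : ℝ) ^ 2) := by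
        rw [mul_sum, ← sum_sub_distrib]
        apply sum_congr rfl
        intro d _
        ring
      rw [e4]
      field_simp
      ring
    rw [e2]
    have f1 : |(∑ d ∈ Icc 1 D, mob d * (((S.filter (fun s => d ^ 2 ∣ n + s)).card : ℝ) - S.card / (d : ℝ) ^ 2)) / S.card| ≤
        D * κ := by
      rw [abs_div, abs_of_pos hc0, div_le_iff₀ hc0]
      refine (abs_sum_le_sum_abs _ _).trans ?_
      calc ∑ d ∈ Icc 1 D, |mob d * (((S.filter (fun s => d ^ 2 ∣ n + s)).card : ℝ) - S.card / (d : ℝ) ^ 2)| ≤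
          ∑ d ∈ Icc 1 D, κ * S.card := by
            apply sum_le_sum
            intro d hd
            rw [mem_Icc] at hd
            rw [abs_mul]
            exact (mul_le_of_le_one_left (abs_nonneg _) (mob_abs' d)).trans (hE d hd.1 hd.2 n)
        _ = D * κ * S.card := by
            rw [sum_const, Nat.card_Icc, Nat.add_sub_cancel, nsmul_eq_mul]
            ring
    have f2 : |∑ d ∈ Icc 1 D, mob d * (1 / (d : ℝ) ^ 2) - c| ≤ 1 / D := by
      rw [hc]
      exact mob_tail hD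
    have f3 : |(1 / (S.card : ℝ)) * ∑ s ∈ S, ∑ d ∈ Ioc D D₁, mob d * (if d ^ 2 ∣ n + s then (1 : ℝ) else 0)| ≤
        (1 / (S.card : ℝ)) * ∑ s ∈ S, ∑ d ∈ Ioc D D₁, (if d ^ 2 ∣ n + s then (1 : ℝ) else 0) := by
      rw [abs_mul, abs_of_pos (by positivity : (0 : ℝ) < 1 / S.card)]
      apply mul_le_mul_of_nonneg_left _ (by positivity)
      refine (abs_sum_le_sum_abs _ _).trans (sum_le_sum fun s _ => ?_)
      refine (abs_sum_le_sum_abs _ _).trans (sum_le_sum fun d _ => ?_)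
      rw [abs_mul]
      refine (mul_le_of_le_one_left (abs_nonneg _) (mob_abs' d)).trans ?_
      split_ifs <;> simp
    have f4 := abs_add_le ((∑ d ∈ Icc 1 D, mob d * (((S.filter (fun s => d ^ 2 ∣ n + s)).card : ℝ) -
      S.card / (d : ℝ) ^ 2)) / S.card) (∑ d ∈ Icc 1 D, mob d * (1 / (d : ℝ) ^ 2) - c)
    refine (abs_add_le _ _).trans ?_
    linarith
  refine (sum_le_sum hpt).trans ?_
  rw [sum_add_distrib, sum_const, Nat.card_Icc, Nat.add_sub_cancel, nsmul_eq_mul, ← mul_sum]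
  have g1 : ∑ n ∈ Icc 1 N, ∑ s ∈ S, ∑ d ∈ Ioc D D₁, (if d ^ 2 ∣ n + s then (1 : ℝ) else 0) ≤
      S.card * (N * (1 / D) + D₁) := by
    rw [sum_comm]
    have g2 : ∀ s ∈ S, ∑ n ∈ Icc 1 N, ∑ d ∈ Ioc D D₁, (if d ^ 2 ∣ n + s then (1 : ℝ) else 0) ≤ N * (1 / D) + D₁ := by
      intro s _
      rw [sum_comm]
      have g3 : ∀ d ∈ Ioc D D₁, ∑ n ∈ Icc 1 N, (if d ^ 2 ∣ n + s then (1 : ℝ) else 0) ≤ N * ((d : ℝ) ^ 2)⁻¹ + 1 := by
        intro d hd
        rw [mem_Ioc] at hd
        have hd0 : 0 < d ^ 2 := by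
          have : 0 < d := by omega
          positivity
        have hd0' : (0 : ℝ) < (d : ℝ) ^ 2 := by exact_mod_cast hd0
        rw [← sum_filter, sum_const, nsmul_eq_mul, mul_one]
        have g4 : ((Icc 1 N).filter (fun n => d ^ 2 ∣ n + s)).card ≤ N / d ^ 2 + 1 := by
          have g5 : ((Icc 1 N).filter (fun n => d ^ 2 ∣ n + s)).card ≤
              ((Ioc s (N + s)).filter (fun k => d ^ 2 ∣ k)).card := by
            apply card_le_card_of_injOn (fun n => n + s)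
            · intro n hn
              rw [mem_coe, mem_filter, mem_Icc] at hn
              rw [mem_coe, mem_filter, mem_Ioc]
              refine ⟨⟨?_, ?_⟩, hn.2⟩
              · dsimp only
                omega
              · dsimp only
                omega
            · intro n _ n' _ h
              simpa using h
          refine g5.trans ?_
          have g6 : (Ioc s (N + s)).filter (fun k => d ^ 2 ∣ k) =
              (Ioc 0 (N + s)).filter (fun k => d ^ 2 ∣ k) \ (Ioc 0 s).filter (fun k => d ^ 2 ∣ k) := by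
            ext k
            simp only [mem_filter, mem_sdiff, mem_Ioc]
            constructor
            · rintro ⟨h1, h2⟩
              exact ⟨⟨⟨by omega, h1.2⟩, h2⟩, fun h => by omega⟩
            · rintro ⟨⟨h1, h2⟩, h3⟩
              refine ⟨⟨?_, h1.2⟩, h2⟩
              by_contra hcon
              exact h3 ⟨⟨h1.1, by omega⟩, h2⟩
          rw [g6, card_sdiff_of_subset (filter_subset_filter _ (Ioc_subset_Ioc_right (by omega))),
            Nat.Ioc_filter_dvd_card_eq_div, Nat.Ioc_filter_dvd_card_eq_div]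
          have g7 : (N + s) / d ^ 2 ≤ N / d ^ 2 + s / d ^ 2 + 1 := by
            rw [Nat.add_div hd0]
            split_ifs
            · exact le_rfl
            · exact Nat.le_succ _
          refine Nat.sub_le_iff_le_add.2 (g7.trans (le_of_eq ?_))
          ring
        have g5 : (((Icc 1 N).filter (fun n => d ^ 2 ∣ n + s)).card : ℝ) ≤ ((N / d ^ 2 : ℕ) : ℝ) + 1 := by
          exact_mod_cast g4
        have g6 : ((N / d ^ 2 : ℕ) : ℝ) ≤ (N : ℝ) / ((d ^ 2 : ℕ) : ℝ) := Nat.cast_div_le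
        push_cast at g6
        rw [← div_eq_mul_inv]
        linarith
      refine (sum_le_sum g3).trans ?_
      rw [sum_add_distrib, ← mul_sum, sum_const, Nat.card_Ioc, nsmul_eq_mul, mul_one]
      have g7 : ∑ d ∈ Ioc D D₁, ((d : ℝ) ^ 2)⁻¹ ≤ 1 / D := by
        refine (sum_Ioc_inv_sq_le_sub (by omega) hDD).trans ?_
        rw [one_div]
        have : (0 : ℝ) ≤ (D₁ : ℝ)⁻¹ := by positivity
        linarith
      have g8 : ((D₁ - D : ℕ) : ℝ) ≤ D₁ := by exact_mod_cast Nat.sub_le _ _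
      have g9 : (N : ℝ) * ∑ d ∈ Ioc D D₁, ((d : ℝ) ^ 2)⁻¹ ≤ N * (1 / D) := mul_le_mul_of_nonneg_left g7 hN0.le
      linarith
    refine (sum_le_sum g2).trans (le_of_eq ?_)
    rw [sum_const, nsmul_eq_mul]
  have g10 : (1 / (S.card : ℝ)) * ∑ n ∈ Icc 1 N, ∑ s ∈ S, ∑ d ∈ Ioc D D₁, (if d ^ 2 ∣ n + s then (1 : ℝ) else 0) ≤
      N * (1 / D) + D₁ := by
    refine (mul_le_mul_of_nonneg_left g1 (by positivity)).trans (le_of_eq ?_)
    field_simp
  have g11 : (N : ℝ) * (D * κ + 2 / D) = N * (D * κ + 1 / D) + N * (1 / D) := by ring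
  rw [g11]
  linarith

end Pool.Agent.Run7.h20.GM
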