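import Pool.Agent.Run7.h20.GM.Cdf
import Pool.Agent.Run7.h20.GM.Conc

/-!
# Gaussian laws for the Moebius function along almost all tuples of members of sets of nearly minimal energy
-/

set_option autoImplicit false

namespace Pool.Agent.Run7.h20.GM

open Finset
open Pool.Agent.H373R2.T7 (ev_L')
open Pool.Agent.Run7.h20.MK (energyS)

lemma alg_exc (P A V m : ℕ) (L η c : ℝ) (hL1 : 1 ≤ L) (hη : 0 < η) (hc : 0 ≤ c) (hm : (m : ℝ) ≤ L ^ A)
    (hL : (2 * P + 1) / η ≤ L) :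
    (((2 * P : ℕ) : ℝ) + 1) * (m : ℝ) ^ (2 * P) * (1 / L ^ (2 * P * A + V + 1) / η) * c ≤ c / L ^ V := by
  have hL0 : 0 < L := by linarith
  have h1 : (m : ℝ) ^ (2 * P) ≤ L ^ (2 * P * A) := by
    calc (m : ℝ) ^ (2 * P) ≤ (L ^ A) ^ (2 * P) := pow_le_pow_left₀ (Nat.cast_nonneg _) hm _
      _ = L ^ (2 * P * A) := by rw [← pow_mul]; congr 1; ring
  have h2 : 2 * (P : ℝ) + 1 ≤ L * η := by
    rw [div_le_iff₀ hη] at hL
    exact hL
  push_cast
  have h3 : (2 * (P : ℝ) + 1) * (m : ℝ) ^ (2 * P) ≤ (L * η) * L ^ (2 * P * A) :=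
    mul_le_mul h2 h1 (by positivity) (by positivity)
  calc (2 * (P : ℝ) + 1) * (m : ℝ) ^ (2 * P) * (1 / L ^ (2 * P * A + V + 1) / η) * c ≤
      ((L * η) * L ^ (2 * P * A)) * (1 / L ^ (2 * P * A + V + 1) / η) * c :=
        mul_le_mul_of_nonneg_right (mul_le_mul_of_nonneg_right h3 (by positivity)) hc
    _ = c / L ^ V := by
        rw [pow_add, pow_add, pow_one]
        field_simp

open Classical in
/-- **self-normalised sums** -/
theorem gauss_self (r A B V : ℕ) (ε : ℝ) (hε : 0 < ε) : ∃ M₀ C N₀ : ℕ, 1 ≤ M₀ ∧ ∀ N : ℕ, N₀ ≤ N →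
    ∀ S : Finset ℕ, S.Nonempty → ∀ a H : ℕ,
    (N : ℝ) ^ (1 / 3 : ℝ) * Real.log N ^ C ≤ H → a + H ≤ B * N → (∀ s ∈ S, a ≤ s ∧ s ≤ a + H) →
    (H : ℝ) * energyS r S ≤ Real.log N ^ A * (S.card : ℝ) ^ (2 * r) →
    ∀ m : ℕ, 1 ≤ m → (m : ℝ) ≤ Real.log N ^ A →
    (((Fintype.piFinset (fun _ : Fin m => S)).filter (fun s => ¬ ∀ t : ℝ,
      |(((Icc 1 N).filter (fun n => M₀ ≤ cnt (av mobI (fun v : ℕ => (v : ℤ)) s n) ∧
        ∑ i, av mobI (fun v : ℕ => (v : ℤ)) s n i ≤ t * √(cnt (av mobI (fun v : ℕ => (v : ℤ)) s n) : ℝ))).card : ℝ) -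
        Phi t * (((Icc 1 N).filter (fun n => M₀ ≤ cnt (av mobI (fun v : ℕ => (v : ℤ)) s n))).card : ℝ)| ≤
        ε * N)).card : ℝ) ≤ (S.card : ℝ) ^ m / Real.log N ^ V := by
  obtain ⟨P, M₀, η, hη, hM₀, hcdf⟩ := cdf_self ε hε
  obtain ⟨C, N1, hset⟩ := mob_set r A B (2 * P * A + V + 1)
  obtain ⟨N2, h2⟩ := ev_L' ((2 * P + 1) / η + 2)
  refine ⟨M₀, C, N1 + N2 + 3, hM₀, fun N hN S hS a H hH haH hS2 hen m hm1 hm => ?_⟩
  have hlaw := hset N (by omega) S hS a H hH haH hS2 hen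
  have hLL := h2 N (by omega)
  obtain ⟨L, hLdef⟩ : ∃ L, L = Real.log (N : ℝ) := ⟨_, rfl⟩
  rw [← hLdef] at hlaw hLL hm ⊢
  have hL2 : 2 ≤ L := by
    have : 0 ≤ (2 * (P : ℝ) + 1) / η := by positivity
    linarith
  have hL1 : 1 ≤ L := by linarith
  have hN1 : 1 ≤ N := by omega
  obtain ⟨w, hw⟩ : ∃ w : ℕ → ℕ → ℝ, ∀ k q, w k q = if M₀ ≤ q then (1 / √(q : ℝ)) ^ k else 0 := ⟨_, fun _ _ => rfl⟩
  have hw1 : ∀ k q, |w k q| ≤ 1 := by
    intro k q
    rw [hw]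
    split_ifs with h
    · have h3 : (1 : ℝ) ≤ q := by exact_mod_cast hM₀.trans h
      have h4 : 1 ≤ √(q : ℝ) := Real.one_le_sqrt.2 h3
      rw [abs_pow]
      apply pow_le_one₀ (abs_nonneg _)
      rw [abs_of_nonneg (by positivity), div_le_one (by linarith)]
      exact h4
    · simp
  have h3 := exc mobI mobI_val S hS (fun v : ℕ => (v : ℤ)) N m hN1 hm1 (1 / L ^ (2 * P * A + V + 1)) (by positivity)
    hlaw (2 * P) η hη w hw1
  refine le_trans ?_ (h3.trans (alg_exc P A V m L η _ hL1 hη (by positivity) hm (by linarith)))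
  rw [Nat.cast_le]
  apply card_le_card
  intro s hs
  rw [mem_filter] at hs ⊢
  refine ⟨hs.1, ?_⟩
  by_contra hcon
  push Not at hcon
  apply hs.2
  obtain ⟨ac, hac⟩ : ∃ ac : ℕ → Fin m → ℝ, ∀ n, ac n = av mobI (fun v : ℕ => (v : ℤ)) s n := ⟨_, fun _ => rfl⟩
  simp_rw [← hac] at hcon ⊢
  have h4 := hcdf m N ((Icc 1 N).filter (fun n => M₀ ≤ cnt (ac n))) (by
    refine (card_filter_le _ _).trans ?_
    rw [Nat.card_Icc]
    omega) ac (fun n _ i => by
      rw [hac]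
      exact mobI_val _) (fun n hn => (mem_filter.1 hn).2) (fun k hk => by
      refine le_trans (le_of_eq ?_) (hcon k hk)
      apply sum_congr rfl
      intro j _
      congr 1
      rw [sum_filter]
      apply sum_congr rfl
      intro n _
      rw [hw]
      split_ifs
      · rfl
      · rw [zero_mul])
  intro t
  have h5 := h4 t
  rw [filter_filter] at h5
  exact h5

open Classical in
/-- **sums normalised by their standard deviation** -/
theorem gauss_const (r A B : ℕ) (ε : ℝ) (hε : 0 < ε) : ∃ (M₀ D C N₀ : ℕ) (κ : ℝ), 0 < κ ∧ ∀ N : ℕ, N₀ ≤ N →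
    ∀ S : Finset ℕ, S.Nonempty → ∀ a H : ℕ,
    (N : ℝ) ^ (1 / 3 : ℝ) * Real.log N ^ C ≤ H → a + H ≤ B * N → (∀ s ∈ S, a ≤ s ∧ s ≤ a + H) →
    (H : ℝ) * energyS r S ≤ Real.log N ^ A * (S.card : ℝ) ^ (2 * r) → Equi D κ S →
    ∀ m : ℕ, M₀ ≤ m → (m : ℝ) ≤ Real.log N ^ A →
    (((Fintype.piFinset (fun _ : Fin m => S)).filter (fun s => ¬ ∀ t : ℝ,
      |(((Icc 1 N).filter (fun n => ∑ i, av mobI (fun v : ℕ => (v : ℤ)) s n i ≤ t * √(6 / Real.pi ^ 2 * m : ℝ))).card : ℝ) -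
        Phi t * N| ≤ ε * N)).card : ℝ) ≤ ε * (S.card : ℝ) ^ m := by
  obtain ⟨c, hc⟩ : ∃ c : ℝ, c = 6 / Real.pi ^ 2 := ⟨_, rfl⟩
  have hc0 : 0 < c := by rw [hc]; positivity
  have hc2 : 1 ≤ c * 2 := by
    have h1 := Real.pi_lt_d2
    have h2 := Real.pi_pos
    have h3 : Real.pi ^ 2 ≤ 12 := by nlinarith
    rw [hc, div_mul_eq_mul_div, le_div_iff₀ (by positivity)]
    linarith
  rw [← hc]
  obtain ⟨P, M₁, η, δ', hη, hδ', hM₁, hcdf⟩ := cdf_const ε c hε hc0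
  obtain ⟨ρ, hρ⟩ : ∃ ρ : ℝ, ρ = ε * δ' / 8 := ⟨_, rfl⟩
  have hρ0 : 0 < ρ := by rw [hρ]; positivity
  obtain ⟨D, hD⟩ := exists_nat_ge (2 / ρ + 1)
  have hD1 : 1 ≤ D := by
    have : (1 : ℝ) ≤ D := by
      have : 0 ≤ 2 / ρ := by positivity
      linarith
    exact_mod_cast this
  have hD0 : (0 : ℝ) < D := by exact_mod_cast hD1
  have hD2 : 2 / (D : ℝ) ≤ ρ := by
    rw [div_le_iff₀ hD0]
    have h1 : 2 / ρ ≤ D := by linarith
    rw [div_le_iff₀ hρ0] at h1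
    linarith
  obtain ⟨M₂, hM₂⟩ := exists_nat_ge (1 / ρ ^ 2)
  obtain ⟨N3, hN3⟩ := exists_nat_ge (2 * D / ρ + 4 * (B + 1) / ρ ^ 2)
  obtain ⟨C, N1, hset⟩ := mob_set r A B (2 * P * A + 1 + 1)
  obtain ⟨N2, h2⟩ := ev_L' ((2 * P + 1) / η + 2 + 2 / ε)
  refine ⟨M₁ + M₂ + 2, D, C, N1 + N2 + N3 + 3, ρ / D, by positivity,
    fun N hN S hS a H hH haH hS2 hen hEq m hmM hm => ?_⟩
  have hlaw := hset N (by omega) S hS a H hH haH hS2 hen
  have hLL := h2 N (by omega)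
  obtain ⟨L, hLdef⟩ : ∃ L, L = Real.log (N : ℝ) := ⟨_, rfl⟩
  rw [← hLdef] at hlaw hLL hm
  have hpos1 : 0 ≤ (2 * (P : ℝ) + 1) / η := by positivity
  have hpos2 : 0 < 2 / ε := by positivity
  have hL2 : 2 ≤ L := by linarith
  have hL1 : 1 ≤ L := by linarith
  have hL0 : 0 < L := by linarith
  have hN1 : 1 ≤ N := by omega
  have hN0 : (0 : ℝ) < N := by exact_mod_cast hN1
  have hm1 : 1 ≤ m := by omega
  have hm0 : (0 : ℝ) < m := by exact_mod_cast hm1
  have hm2 : (2 : ℝ) ≤ m := by exact_mod_cast (by omega : 2 ≤ m)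
  have hcm1 : 1 ≤ c * m := hc2.trans (mul_le_mul_of_nonneg_left hm2 hc0.le)
  have hSc0 : (0 : ℝ) < S.card := by exact_mod_cast hS.card_pos
  obtain ⟨w, hw⟩ : ∃ w : ℕ → ℕ → ℝ, ∀ k q, w k q = (1 / √(c * m : ℝ)) ^ k := ⟨_, fun _ _ => rfl⟩
  have hw1 : ∀ k q, |w k q| ≤ 1 := by
    intro k q
    rw [hw]
    have h4 : 1 ≤ √(c * m : ℝ) := Real.one_le_sqrt.2 hcm1
    rw [abs_pow]
    apply pow_le_one₀ (abs_nonneg _)
    rw [abs_of_nonneg (by positivity), div_le_one (by linarith)]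
    exact h4
  -- the two exceptional sets
  obtain ⟨E1, hE1⟩ : ∃ E1, E1 = (Fintype.piFinset (fun _ : Fin m => S)).filter (fun s => ∃ k ≤ 2 * P, η * N <
      ∑ j ∈ univ.filter (fun j : Fin k → Fin m => OddV j), |∑ n ∈ Icc 1 N,
        w k (cnt (av mobI (fun v : ℕ => (v : ℤ)) s n)) * ∏ l, av mobI (fun v : ℕ => (v : ℤ)) s n (j l)|) := ⟨_, rfl⟩
  have hE1c : (E1.card : ℝ) ≤ ε / 2 * (S.card : ℝ) ^ m := by
    rw [hE1]
    have h3 := exc mobI mobI_val S hS (fun v : ℕ => (v : ℤ)) N m hN1 hm1 (1 / L ^ (2 * P * A + 1 + 1)) (by positivity)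
      hlaw (2 * P) η hη w hw1
    refine (h3.trans (alg_exc P A 1 m L η _ hL1 hη (by positivity) hm (by linarith))).trans ?_
    rw [pow_one, div_le_iff₀ hL0]
    have h4 : 1 ≤ ε / 2 * L := by
      have h5 : 2 / ε ≤ L := by linarith
      rw [div_le_iff₀ hε] at h5
      linarith
    calc (S.card : ℝ) ^ m = 1 * (S.card : ℝ) ^ m := (one_mul _).symm
      _ ≤ (ε / 2 * L) * (S.card : ℝ) ^ m := mul_le_mul_of_nonneg_right h4 (by positivity)
      _ = _ := by ring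
  obtain ⟨X, hX⟩ : ∃ X : (Fin m → ℕ) → ℝ, ∀ s, X s =
      ∑ n ∈ Icc 1 N, |(cnt (av mobI (fun v : ℕ => (v : ℤ)) s n) : ℝ) - c * m| := ⟨_, fun _ => rfl⟩
  obtain ⟨E2, hE2⟩ : ∃ E2, E2 = (Fintype.piFinset (fun _ : Fin m => S)).filter (fun s => δ' * (m * N) < X s) := ⟨_, rfl⟩
  have hE2c : (E2.card : ℝ) ≤ ε / 2 * (S.card : ℝ) ^ m := by
    obtain ⟨α, hα⟩ : ∃ α : ℕ → ℝ, ∀ n : ℕ, α n = (∑ s ∈ S, mobI ((n : ℤ) + (s : ℤ)) ^ 2) / S.card := ⟨_, fun _ => rfl⟩
    have h3 := alpha_le D B N (ρ / D) hD1 hN1 S hS (fun s hs => (hS2 s hs).2.trans haH) hEq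
    simp_rw [← hα, ← hc] at h3
    have h4 : ∑ n ∈ Icc 1 N, |α n - c| ≤ 3 * ρ * N := by
      refine h3.trans ?_
      have e1 : (D : ℝ) * (ρ / D) = ρ := by field_simp
      have hN3' : 2 * D / ρ + 4 * (B + 1) / ρ ^ 2 ≤ (N : ℝ) := by
        have : (N3 : ℝ) ≤ N := by exact_mod_cast (by omega : N3 ≤ N)
        linarith
      have e2 : (D : ℝ) ≤ ρ / 2 * N := by
        have h5 : 2 * (D : ℝ) / ρ ≤ N := by
          have : 0 ≤ 4 * ((B : ℝ) + 1) / ρ ^ 2 := by positivity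
          linarith
        rw [div_le_iff₀ hρ0] at h5
        linarith
      have e3 : √((B + 1) * N : ℝ) ≤ ρ / 2 * N := by
        rw [Real.sqrt_le_left (by positivity)]
        have h5 : 4 * ((B : ℝ) + 1) / ρ ^ 2 ≤ N := by
          have : 0 ≤ 2 * (D : ℝ) / ρ := by positivity
          linarith
        rw [div_le_iff₀ (by positivity)] at h5
        nlinarith
      rw [e1]
      have e4 : (N : ℝ) * (ρ + 2 / D) ≤ N * (ρ + ρ) := mul_le_mul_of_nonneg_left (by linarith) hN0.le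
      linarith
    have h5 : ∑ s ∈ Fintype.piFinset (fun _ : Fin m => S), X s ≤ 4 * ρ * (m * N) * (S.card : ℝ) ^ m := by
      simp_rw [hX]
      rw [sum_comm]
      have e1 : ∀ n ∈ Icc 1 N, ∑ s ∈ Fintype.piFinset (fun _ : Fin m => S),
          |(cnt (av mobI (fun v : ℕ => (v : ℤ)) s n) : ℝ) - c * m| ≤
          √(m : ℝ) * (S.card : ℝ) ^ m + m * |α n - c| * (S.card : ℝ) ^ m := by
        intro n _
        have e2 := var_le S hS m (fun s => mobI ((n : ℤ) + (s : ℤ)) ^ 2) (fun s _ => by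
          rcases mobI_val ((n : ℤ) + (s : ℤ)) with h | h | h
          · rw [h]; norm_num
          · rw [h]; norm_num
          · rw [h]; norm_num)
        rw [← hα] at e2
        have e3 : ∀ s ∈ Fintype.piFinset (fun _ : Fin m => S),
            |(cnt (av mobI (fun v : ℕ => (v : ℤ)) s n) : ℝ) - c * m| ≤
            |∑ i, mobI ((n : ℤ) + (s i : ℤ)) ^ 2 - m * α n| + m * |α n - c| := by
          intro s _
          rw [cnt_sq (av mobI (fun v : ℕ => (v : ℤ)) s n) (fun i => mobI_val _)]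
          have e4 : (∑ i, av mobI (fun v : ℕ => (v : ℤ)) s n i ^ 2) - c * m =
              (∑ i, mobI ((n : ℤ) + (s i : ℤ)) ^ 2 - m * α n) + m * (α n - c) := by
            unfold av
            ring
          rw [e4]
          refine (abs_add_le _ _).trans ?_
          rw [abs_mul, abs_of_pos hm0]
        refine (sum_le_sum e3).trans ?_
        rw [sum_add_distrib, sum_const, Fintype.card_piFinset, prod_const, card_univ, Fintype.card_fin, nsmul_eq_mul]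
        push_cast
        linarith
      refine (sum_le_sum e1).trans ?_
      rw [sum_add_distrib, sum_const, Nat.card_Icc, Nat.add_sub_cancel, nsmul_eq_mul, ← sum_mul, ← mul_sum]
      have e5 : √(m : ℝ) ≤ ρ * m := by
        rw [Real.sqrt_le_left (by positivity)]
        have h6 : 1 / ρ ^ 2 ≤ (m : ℝ) := hM₂.trans (by exact_mod_cast (by omega : M₂ ≤ m))
        rw [div_le_iff₀ (by positivity)] at h6
        nlinarith
      have e6 : (m : ℝ) * ∑ n ∈ Icc 1 N, |α n - c| ≤ m * (3 * ρ * N) := mul_le_mul_of_nonneg_left h4 hm0.le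
      calc (N : ℝ) * (√(m : ℝ) * (S.card : ℝ) ^ m) + m * (∑ n ∈ Icc 1 N, |α n - c|) * (S.card : ℝ) ^ m =
          (N * √(m : ℝ) + m * ∑ n ∈ Icc 1 N, |α n - c|) * (S.card : ℝ) ^ m := by ring
        _ ≤ (N * (ρ * m) + m * (3 * ρ * N)) * (S.card : ℝ) ^ m := by
            apply mul_le_mul_of_nonneg_right _ (by positivity)
            have := mul_le_mul_of_nonneg_left e5 hN0.le
            linarith
        _ = _ := by ring
    have h6 : (E2.card : ℝ) * (δ' * (m * N)) ≤ 4 * ρ * (m * N) * (S.card : ℝ) ^ m := by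
      refine le_trans ?_ h5
      rw [hE2, ← nsmul_eq_mul, ← sum_const]
      refine (sum_le_sum fun s hs => (mem_filter.1 hs).2.le).trans ?_
      apply sum_le_sum_of_subset_of_nonneg (filter_subset _ _)
      intro s _ _
      rw [hX]
      exact sum_nonneg fun _ _ => abs_nonneg _
    have h7 : 4 * ρ * (m * N) * (S.card : ℝ) ^ m = (ε / 2 * (S.card : ℝ) ^ m) * (δ' * (m * N)) := by
      rw [hρ]
      ring
    rw [h7] at h6
    exact le_of_mul_le_mul_right h6 (by positivity)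
  have hsub : (Fintype.piFinset (fun _ : Fin m => S)).filter (fun s => ¬ ∀ t : ℝ,
      |(((Icc 1 N).filter (fun n => ∑ i, av mobI (fun v : ℕ => (v : ℤ)) s n i ≤ t * √(c * m : ℝ))).card : ℝ) -
        Phi t * N| ≤ ε * N) ⊆ E1 ∪ E2 := by
    intro s hs
    rw [mem_filter] at hs
    rw [mem_union]
    by_contra hcon
    push Not at hcon
    obtain ⟨hc1, hc2'⟩ := hcon
    apply hs.2
    have g1 : ∀ k ≤ 2 * P, ∑ j ∈ univ.filter (fun j : Fin k → Fin m => OddV j), |∑ n ∈ Icc 1 N,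
        w k (cnt (av mobI (fun v : ℕ => (v : ℤ)) s n)) * ∏ l, av mobI (fun v : ℕ => (v : ℤ)) s n (j l)| ≤ η * N := by
      intro k hk
      by_contra h
      apply hc1
      rw [hE1, mem_filter]
      exact ⟨hs.1, k, hk, not_le.1 h⟩
    have g2 : X s ≤ δ' * (m * N) := by
      by_contra h
      apply hc2'
      rw [hE2, mem_filter]
      exact ⟨hs.1, not_le.1 h⟩
    rw [hX] at g2
    have h4 := hcdf m N (by omega) (Icc 1 N) (by rw [Nat.card_Icc]; omega)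
      (fun n => av mobI (fun v : ℕ => (v : ℤ)) s n) (fun n _ i => mobI_val _) g2 (fun k hk => by
        refine le_trans (le_of_eq ?_) (g1 k hk)
        apply sum_congr rfl
        intro j _
        congr 1
        apply sum_congr rfl
        intro n _
        rw [hw])
    rw [Nat.card_Icc, Nat.add_sub_cancel] at h4
    exact h4
  have h8 := (card_le_card hsub).trans (card_union_le _ _)
  have h9 : (((Fintype.piFinset (fun _ : Fin m => S)).filter (fun s => ¬ ∀ t : ℝ,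
      |(((Icc 1 N).filter (fun n => ∑ i, av mobI (fun v : ℕ => (v : ℤ)) s n i ≤ t * √(c * m : ℝ))).card : ℝ) -
        Phi t * N| ≤ ε * N)).card : ℝ) ≤ E1.card + E2.card := by exact_mod_cast h8
  refine h9.trans ?_
  have h10 : ε / 2 * (S.card : ℝ) ^ m + ε / 2 * (S.card : ℝ) ^ m = ε * (S.card : ℝ) ^ m := by ring
  linarith

end Pool.Agent.Run7.h20.GM
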