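import Pool.Agent.Run7.h20.GM.Sgn

/-!
# The moment method for sums whose odd correlations are small
-/

set_option autoImplicit false

namespace Pool.Agent.Run7.h20.GM

open Finset

lemma tp_eq (K : ℕ) (y : ℝ) : tp K y = ∑ k ∈ range K, Complex.I ^ k / (k.factorial : ℂ) * ((y ^ k : ℝ) : ℂ) := by
  unfold tp
  apply sum_congr rfl
  intro k _
  rw [mul_pow]
  push_cast
  ring

open Classical in
/-- **the characteristic functions** of normalised sums of numbers `-1, 0, 1` whose odd correlations are small -/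
theorem det (U δ K : ℝ) (hU : 0 < U) (hδ : 0 < δ) (hK : 0 < K) : ∃ (P : ℕ) (η v₀ : ℝ), 0 < η ∧ 1 ≤ v₀ ∧
    ∀ (m N : ℕ) (A : Finset ℕ), A.card ≤ N → ∀ (a : ℕ → Fin m → ℝ) (v : ℕ → ℝ),
      (∀ n ∈ A, ∀ i, a n i = -1 ∨ a n i = 0 ∨ a n i = 1) → (∀ n ∈ A, v₀ ≤ v n ∧ (cnt (a n) : ℝ) ≤ K * v n) →
      (∀ k ≤ 2 * P, ∑ j ∈ univ.filter (fun j : Fin k → Fin m => OddV j),
        |∑ n ∈ A, (1 / √(v n)) ^ k * ∏ l, a n (j l)| ≤ η * N) →
      ∀ u : ℝ, |u| ≤ U → ‖∑ n ∈ A, Complex.exp (((u / √(v n) * ∑ i, a n i : ℝ) : ℂ) * Complex.I) -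
        ((∑ n ∈ A, Real.exp (-(u ^ 2 / (2 * v n)) * cnt (a n)) : ℝ) : ℂ)‖ ≤ δ * N := by
  -- the parameters
  obtain ⟨b₁, hb₁⟩ : ∃ b₁, b₁ = 2 * Real.exp (2 * U ^ 2 * K) := ⟨_, rfl⟩
  have hb₁0 : 0 < b₁ := by rw [hb₁]; positivity
  obtain ⟨P, hP⟩ : ∃ P : ℕ, (1 / 4 : ℝ) ^ P * b₁ ≤ δ / 6 := by
    have h1 := exists_pow_lt_of_lt_one (show 0 < δ / 6 / b₁ by positivity) (show (1 / 4 : ℝ) < 1 by norm_num)
    obtain ⟨P, hP⟩ := h1
    refine ⟨P, ?_⟩
    rw [lt_div_iff₀ hb₁0] at hP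
    exact hP.le
  obtain ⟨η, hη⟩ : ∃ η, η = δ / 6 / Real.exp U := ⟨_, rfl⟩
  obtain ⟨v₀, hv₀⟩ : ∃ v₀, v₀ = 1 + U ^ 2 + 3 * K * U ^ 4 / δ := ⟨_, rfl⟩
  have hη0 : 0 < η := by rw [hη]; positivity
  have hv₀1 : 1 ≤ v₀ := by
    rw [hv₀]
    have : 0 ≤ U ^ 2 + 3 * K * U ^ 4 / δ := by positivity
    linarith
  refine ⟨P, η, v₀, hη0, hv₀1, ?_⟩
  intro m N A hA a v ha hv herr u hu
  have hN0 : (0 : ℝ) ≤ N := Nat.cast_nonneg _
  have hAN : (A.card : ℝ) ≤ N := by exact_mod_cast hA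
  have h2m : (0 : ℝ) < 2 ^ m := by positivity
  have hηU : Real.exp U * η = δ / 6 := by rw [hη]; field_simp
  obtain ⟨r, hr⟩ : ∃ r : ℕ → ℝ, ∀ n, r n = 1 / √(v n) := ⟨_, fun _ => rfl⟩
  have hv1 : ∀ n ∈ A, 1 ≤ v n := fun n hn => hv₀1.trans (hv n hn).1
  have hr0 : ∀ n, 0 ≤ r n := fun n => by rw [hr]; positivity
  have hr2 : ∀ n ∈ A, r n ^ 2 = 1 / v n := fun n hn => by
    rw [hr, div_pow, one_pow, Real.sq_sqrt (by linarith [hv1 n hn])]
  obtain ⟨θ, hθ⟩ : ∃ θ : ℕ → ℝ, ∀ n, θ n = u * r n := ⟨_, fun _ => rfl⟩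
  obtain ⟨T, hT⟩ : ∃ T : ℕ → ℝ, ∀ n, T n = ∑ i, a n i := ⟨_, fun _ => rfl⟩
  obtain ⟨Te, hTe⟩ : ∃ Te : ℕ → (Fin m → ℝ) → ℝ, ∀ n e, Te n e = ∑ i, e i * a n i := ⟨_, fun _ _ => rfl⟩
  obtain ⟨B, hB⟩ : ∃ B : ℕ → ℝ, ∀ n, B n = (∑ e ∈ Sg m, |θ n * Te n e| ^ (2 * P) / (2 * P).factorial) / 2 ^ m :=
    ⟨_, fun _ => rfl⟩
  -- the odd part
  have hodd : ∀ k ≤ 2 * P, |∑ n ∈ A, ((θ n * T n) ^ k - (∑ e ∈ Sg m, (θ n * Te n e) ^ k) / 2 ^ m)| ≤ U ^ k * (η * N) := by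
    intro k hk
    have e1 : ∀ n ∈ A, (θ n * T n) ^ k - (∑ e ∈ Sg m, (θ n * Te n e) ^ k) / 2 ^ m =
        u ^ k * ∑ j ∈ univ.filter (fun j : Fin k → Fin m => OddV j), (r n ^ k * ∏ l, a n (j l)) := by
      intro n _
      have e2 := sg_pow (a n) k
      rw [← hT] at e2
      simp_rw [← hTe] at e2
      rw [← mul_sum, ← e2, hθ]
      have e3 : ∑ e ∈ Sg m, (u * r n * Te n e) ^ k = (u * r n) ^ k * ∑ e ∈ Sg m, (Te n e) ^ k := by
        rw [mul_sum]
        apply sum_congr rfl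
        intro e _
        rw [mul_pow]
      rw [e3, mul_pow (u * r n), mul_pow u (r n)]
      ring
    rw [sum_congr rfl e1, ← mul_sum, abs_mul, abs_pow]
    have e4 := herr k hk
    have e5 : |∑ n ∈ A, ∑ j ∈ univ.filter (fun j : Fin k → Fin m => OddV j), (r n ^ k * ∏ l, a n (j l))| ≤ η * N := by
      rw [sum_comm]
      refine (abs_sum_le_sum_abs _ _).trans ?_
      simp_rw [hr]
      exact e4
    exact mul_le_mul (pow_le_pow_left₀ (abs_nonneg _) hu k) e5 (abs_nonneg _) (by positivity)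
  -- the moments of the sums of random signs
  have hBb : ∀ n ∈ A, B n ≤ (1 / 4 : ℝ) ^ P * b₁ := by
    intro n hn
    rw [hB, div_le_iff₀ h2m]
    have e1 := sg_mom (a n) (ha n hn) (2 * U * r n) (2 * P)
    have e2 : ∀ e ∈ Sg m, |θ n * Te n e| ^ (2 * P) / (2 * P).factorial ≤
        (1 / 4 : ℝ) ^ P * (|2 * U * r n * ∑ i, e i * a n i| ^ (2 * P) / (2 * P).factorial) := by
      intro e _
      rw [hTe, hθ, mul_div_assoc']
      apply div_le_div_of_nonneg_right _ (by positivity)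
      have e3 : |u * r n * ∑ i, e i * a n i| ≤ 1 / 2 * |2 * U * r n * ∑ i, e i * a n i| := by
        rw [abs_mul, abs_mul, abs_mul (2 * U * r n), abs_mul (2 * U), abs_of_pos (show 0 < 2 * U by positivity)]
        have e4 : |u| * (|r n| * |∑ i, e i * a n i|) ≤ U * (|r n| * |∑ i, e i * a n i|) :=
          mul_le_mul_of_nonneg_right hu (by positivity)
        calc |u| * |r n| * |∑ i, e i * a n i| = |u| * (|r n| * |∑ i, e i * a n i|) := by ring
          _ ≤ U * (|r n| * |∑ i, e i * a n i|) := e4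
          _ = _ := by ring
      have e5 : (1 / 4 : ℝ) ^ P = (1 / 2) ^ (2 * P) := by
        rw [pow_mul]
        norm_num
      rw [e5, ← mul_pow]
      exact pow_le_pow_left₀ (abs_nonneg _) e3 _
    refine (sum_le_sum e2).trans ?_
    rw [← mul_sum]
    have e6 : (2 * U * r n) ^ 2 / 2 * (cnt (a n) : ℝ) ≤ 2 * U ^ 2 * K := by
      rw [mul_pow, hr2 n hn]
      have e7 := (hv n hn).2
      have e8 : 0 < v n := by linarith [hv1 n hn]
      have e9 : (2 * U) ^ 2 * (1 / v n) / 2 * (cnt (a n) : ℝ) = 2 * U ^ 2 * ((cnt (a n) : ℝ) / v n) := by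
        field_simp
      rw [e9]
      apply mul_le_mul_of_nonneg_left _ (by positivity)
      rw [div_le_iff₀ e8]
      exact e7
    have e10 : 2 * 2 ^ m * Real.exp ((2 * U * r n) ^ 2 / 2 * (cnt (a n) : ℝ)) ≤ b₁ * 2 ^ m := by
      rw [hb₁]
      have := Real.exp_le_exp.2 e6
      nlinarith
    calc (1 / 4 : ℝ) ^ P * ∑ e ∈ Sg m, |2 * U * r n * ∑ i, e i * a n i| ^ (2 * P) / (2 * P).factorial ≤
        (1 / 4 : ℝ) ^ P * (b₁ * 2 ^ m) := mul_le_mul_of_nonneg_left (e1.trans e10) (by positivity)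
      _ = _ := by ring
  have hBsum : ∑ n ∈ A, B n ≤ δ / 6 * N := by
    refine (sum_le_sum hBb).trans ?_
    rw [sum_const, nsmul_eq_mul]
    calc (A.card : ℝ) * ((1 / 4 : ℝ) ^ P * b₁) ≤ N * (δ / 6) :=
          mul_le_mul hAN hP (by positivity) hN0
      _ = _ := by ring
  -- the remainder for the sums themselves
  have hrem1 : ∑ n ∈ A, |θ n * T n| ^ (2 * P) / (2 * P).factorial ≤ δ / 3 * N := by
    have e1 := hodd (2 * P) le_rfl
    have e2 : ∀ n ∈ A, |θ n * T n| ^ (2 * P) / (2 * P).factorial =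
        ((θ n * T n) ^ (2 * P) - (∑ e ∈ Sg m, (θ n * Te n e) ^ (2 * P)) / 2 ^ m) / (2 * P).factorial + B n := by
      intro n _
      rw [hB, ← sum_div]
      have e3 : ∀ y : ℝ, |y| ^ (2 * P) = y ^ (2 * P) := fun y => by
        rw [pow_mul, sq_abs, ← pow_mul]
      simp_rw [e3]
      ring
    rw [sum_congr rfl e2, sum_add_distrib, ← sum_div]
    have e4 : (∑ n ∈ A, ((θ n * T n) ^ (2 * P) - (∑ e ∈ Sg m, (θ n * Te n e) ^ (2 * P)) / 2 ^ m)) / (2 * P).factorial ≤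
        δ / 6 * N := by
      have e5 : (0 : ℝ) < (2 * P).factorial := by positivity
      rw [div_le_iff₀ e5]
      refine (le_abs_self _).trans (e1.trans ?_)
      have e6 : U ^ (2 * P) ≤ Real.exp U * (2 * P).factorial := by
        have := Real.pow_div_factorial_le_exp U hU.le (2 * P)
        rw [div_le_iff₀ e5] at this
        exact this
      have e7 : 0 ≤ η * N := by rw [hη]; positivity
      calc U ^ (2 * P) * (η * N) ≤ (Real.exp U * (2 * P).factorial) * (η * N) := mul_le_mul_of_nonneg_right e6 e7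
        _ = (Real.exp U * η) * N * (2 * P).factorial := by ring
        _ = _ := by rw [hηU]
    linarith
  -- the Taylor polynomials
  have hmain : ‖∑ n ∈ A, (tp (2 * P) (θ n * T n) - (∑ e ∈ Sg m, tp (2 * P) (θ n * Te n e)) / 2 ^ m)‖ ≤ δ / 6 * N := by
    have e1 : ∑ n ∈ A, (tp (2 * P) (θ n * T n) - (∑ e ∈ Sg m, tp (2 * P) (θ n * Te n e)) / 2 ^ m) =
        ∑ k ∈ range (2 * P), Complex.I ^ k / (k.factorial : ℂ) *
          ((∑ n ∈ A, ((θ n * T n) ^ k - (∑ e ∈ Sg m, (θ n * Te n e) ^ k) / 2 ^ m) : ℝ) : ℂ) := by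
      simp_rw [tp_eq]
      push_cast
      simp_rw [mul_sum]
      rw [sum_comm (s := range (2 * P))]
      apply sum_congr rfl
      intro n _
      rw [sum_comm (s := Sg m), sum_div, ← sum_sub_distrib]
      apply sum_congr rfl
      intro k _
      rw [mul_sub]
      congr 1
      rw [mul_div_assoc', mul_sum]
    rw [e1]
    refine (norm_sum_le _ _).trans ?_
    have e2 : ∀ k ∈ range (2 * P), ‖Complex.I ^ k / (k.factorial : ℂ) *
        ((∑ n ∈ A, ((θ n * T n) ^ k - (∑ e ∈ Sg m, (θ n * Te n e) ^ k) / 2 ^ m) : ℝ) : ℂ)‖ ≤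
        U ^ k / k.factorial * (η * N) := by
      intro k hk
      rw [mem_range] at hk
      rw [norm_mul, norm_div, norm_pow, Complex.norm_I, one_pow, Complex.norm_natCast, Complex.norm_real, Real.norm_eq_abs]
      calc _ ≤ 1 / (k.factorial : ℝ) * (U ^ k * (η * N)) := mul_le_mul_of_nonneg_left (hodd k hk.le) (by positivity)
        _ = _ := by ring
    refine (sum_le_sum e2).trans ?_
    rw [← sum_mul]
    have e3 := Real.sum_le_exp_of_nonneg hU.le (2 * P)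
    have e7 : 0 ≤ η * N := by rw [hη]; positivity
    calc _ ≤ Real.exp U * (η * N) := mul_le_mul_of_nonneg_right e3 e7
      _ = (Real.exp U * η) * N := by ring
      _ = _ := by rw [hηU]
  -- the sums
  have hs1 : ‖∑ n ∈ A, (Complex.exp (((θ n * T n : ℝ) : ℂ) * Complex.I) - tp (2 * P) (θ n * T n))‖ ≤ δ / 3 * N := by
    refine (norm_sum_le _ _).trans (le_trans (sum_le_sum fun n _ => tay (2 * P) (θ n * T n)) hrem1)
  have hs2 : ‖∑ n ∈ A, ((∑ e ∈ Sg m, tp (2 * P) (θ n * Te n e)) / 2 ^ m - ((Real.cos (θ n) ^ cnt (a n) : ℝ) : ℂ))‖ ≤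
      δ / 6 * N := by
    refine (norm_sum_le _ _).trans (le_trans (sum_le_sum fun n hn => ?_) hBsum)
    have e1 := sg_cos (a n) (ha n hn) (θ n)
    have e2 : ((Real.cos (θ n) ^ cnt (a n) : ℝ) : ℂ) =
        (∑ e ∈ Sg m, Complex.exp (((θ n * Te n e : ℝ) : ℂ) * Complex.I)) / 2 ^ m := by
      simp_rw [hTe]
      rw [e1]
      have : (2 : ℂ) ^ m ≠ 0 := pow_ne_zero _ two_ne_zero
      field_simp
    rw [e2, ← sub_div, ← sum_sub_distrib, norm_div, norm_pow, Complex.norm_ofNat, hB]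
    apply div_le_div_of_nonneg_right _ h2m.le
    refine (norm_sum_le _ _).trans (sum_le_sum fun e _ => ?_)
    rw [norm_sub_rev]
    exact tay (2 * P) (θ n * Te n e)
  have hs3 : ‖∑ n ∈ A, (((Real.cos (θ n) ^ cnt (a n) : ℝ) : ℂ) - ((Real.exp (-(u ^ 2 / (2 * v n)) * cnt (a n)) : ℝ) : ℂ))‖ ≤
      δ / 3 * N := by
    have e0 : ∀ n ∈ A, ‖((Real.cos (θ n) ^ cnt (a n) : ℝ) : ℂ) - ((Real.exp (-(u ^ 2 / (2 * v n)) * cnt (a n)) : ℝ) : ℂ)‖ ≤
        δ / 3 := by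
      intro n hn
      rw [← Complex.ofReal_sub, Complex.norm_real, Real.norm_eq_abs]
      have q1 := hv1 n hn
      have q2 : 0 < v n := by linarith
      have q3 : θ n ^ 2 = u ^ 2 / v n := by
        rw [hθ, mul_pow, hr2 n hn]
        ring
      have q4 : u ^ 2 ≤ U ^ 2 := by
        rw [← sq_abs]
        exact pow_le_pow_left₀ (abs_nonneg _) hu 2
      have q5 : |θ n| ≤ 1 := by
        rw [← sq_le_one_iff₀ (abs_nonneg _), sq_abs, q3, div_le_one q2]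
        have := (hv n hn).1
        have q6 : U ^ 2 ≤ v₀ := by
          rw [hv₀]
          have : 0 ≤ 3 * K * U ^ 4 / δ := by positivity
          linarith
        linarith
      have q6 := cos_gauss (θ n) q5 (cnt (a n))
      have q7 : -(θ n ^ 2 / 2) * (cnt (a n) : ℝ) = -(u ^ 2 / (2 * v n)) * cnt (a n) := by
        rw [q3]
        ring
      rw [q7] at q6
      refine q6.trans ?_
      have q8 : θ n ^ 4 = u ^ 4 / v n ^ 2 := by
        have : θ n ^ 4 = (θ n ^ 2) ^ 2 := by ring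
        rw [this, q3, div_pow]
        ring
      rw [q8]
      have q9 : u ^ 4 ≤ U ^ 4 := by
        have := pow_le_pow_left₀ (abs_nonneg u) hu 4
        rw [← abs_pow, abs_of_nonneg (show 0 ≤ u ^ 4 by positivity)] at this
        exact this
      have q10 : 3 * K * U ^ 4 / δ ≤ v n := by
        refine le_trans ?_ (hv n hn).1
        rw [hv₀]
        have : 0 ≤ U ^ 2 := by positivity
        linarith
      rw [div_le_iff₀ hδ] at q10
      calc (cnt (a n) : ℝ) * (u ^ 4 / v n ^ 2) ≤ (K * v n) * (U ^ 4 / v n ^ 2) :=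
            mul_le_mul (hv n hn).2 (div_le_div_of_nonneg_right q9 (by positivity)) (by positivity) (by positivity)
        _ = K * U ^ 4 / v n := by field_simp
        _ ≤ δ / 3 := by
            rw [div_le_iff₀ q2]
            linarith
    refine (norm_sum_le _ _).trans ((sum_le_sum e0).trans ?_)
    rw [sum_const, nsmul_eq_mul]
    calc (A.card : ℝ) * (δ / 3) ≤ N * (δ / 3) := mul_le_mul_of_nonneg_right hAN (by positivity)
      _ = _ := by ring
  have hfin : ∑ n ∈ A, Complex.exp (((u / √(v n) * ∑ i, a n i : ℝ) : ℂ) * Complex.I) -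
        ((∑ n ∈ A, Real.exp (-(u ^ 2 / (2 * v n)) * cnt (a n)) : ℝ) : ℂ) =
      ∑ n ∈ A, (Complex.exp (((θ n * T n : ℝ) : ℂ) * Complex.I) - tp (2 * P) (θ n * T n)) +
      ∑ n ∈ A, (tp (2 * P) (θ n * T n) - (∑ e ∈ Sg m, tp (2 * P) (θ n * Te n e)) / 2 ^ m) +
      ∑ n ∈ A, ((∑ e ∈ Sg m, tp (2 * P) (θ n * Te n e)) / 2 ^ m - ((Real.cos (θ n) ^ cnt (a n) : ℝ) : ℂ)) +
      ∑ n ∈ A, (((Real.cos (θ n) ^ cnt (a n) : ℝ) : ℂ) - ((Real.exp (-(u ^ 2 / (2 * v n)) * cnt (a n)) : ℝ) : ℂ)) := by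
    rw [Complex.ofReal_sum, ← sum_sub_distrib, ← sum_add_distrib, ← sum_add_distrib, ← sum_add_distrib]
    apply sum_congr rfl
    intro n _
    have : u / √(v n) * ∑ i, a n i = θ n * T n := by
      rw [hθ, hT, hr]
      ring
    rw [this]
    ring
  rw [hfin]
  refine (norm_add_le _ _).trans ?_
  have g1 := norm_add_le (∑ n ∈ A, (Complex.exp (((θ n * T n : ℝ) : ℂ) * Complex.I) - tp (2 * P) (θ n * T n)) +
      ∑ n ∈ A, (tp (2 * P) (θ n * T n) - (∑ e ∈ Sg m, tp (2 * P) (θ n * Te n e)) / 2 ^ m))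
      (∑ n ∈ A, ((∑ e ∈ Sg m, tp (2 * P) (θ n * Te n e)) / 2 ^ m - ((Real.cos (θ n) ^ cnt (a n) : ℝ) : ℂ)))
  have g2 := norm_add_le (∑ n ∈ A, (Complex.exp (((θ n * T n : ℝ) : ℂ) * Complex.I) - tp (2 * P) (θ n * T n)))
      (∑ n ∈ A, (tp (2 * P) (θ n * T n) - (∑ e ∈ Sg m, tp (2 * P) (θ n * Te n e)) / 2 ^ m))
  have g3 : δ / 3 * N + δ / 6 * N + δ / 6 * N + δ / 3 * N = δ * N := by ring
  linarith

end Pool.Agent.Run7.h20.GM
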