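import Pool.Agent.Run7.h20.GM.Inv
import Pool.Agent.Run7.h20.GM.Det

/-!
# Distribution functions of finite sequences
-/

set_option autoImplicit false

namespace Pool.Agent.Run7.h20.GM

open MeasureTheory ProbabilityTheory Filter Topology
open scoped ENNReal

/-- the uniform distribution on a finite sequence -/
noncomputable def emp (A : Finset ℕ) (x : ℕ → ℝ) : Measure ℝ := ((A.card : ℝ≥0∞)⁻¹) • ∑ n ∈ A, Measure.dirac (x n)

lemma emp_prob (A : Finset ℕ) (x : ℕ → ℝ) (hA : A.Nonempty) : IsProbabilityMeasure (emp A x) := by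
  constructor
  unfold emp
  rw [Measure.smul_apply, Measure.finset_sum_apply]
  simp only [measure_univ, Finset.sum_const, nsmul_eq_mul, mul_one, smul_eq_mul]
  apply ENNReal.inv_mul_cancel
  · have := hA.card_pos
    exact_mod_cast this.ne'
  · exact ENNReal.natCast_ne_top _

lemma emp_char (A : Finset ℕ) (x : ℕ → ℝ) (u : ℝ) :
    charFun (emp A x) u = ((A.card : ℝ) : ℂ)⁻¹ * ∑ n ∈ A, Complex.exp (((u * x n : ℝ) : ℂ) * Complex.I) := by
  rw [charFun_apply_real]
  unfold emp
  rw [integral_smul_measure, integral_finset_sum_measure]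
  · rw [ENNReal.toReal_inv, ENNReal.toReal_natCast, Complex.real_smul]
    push_cast
    congr 1
    apply Finset.sum_congr rfl
    intro n _
    rw [integral_dirac]
  · intro n _
    exact integrable_dirac (by simp)

open Classical in
lemma emp_real (A : Finset ℕ) (x : ℕ → ℝ) (t : ℝ) :
    (emp A x).real (Set.Iic t) = ((A.filter (fun n => x n ≤ t)).card : ℝ) / A.card := by
  unfold emp
  rw [Measure.real, Measure.smul_apply, Measure.finset_sum_apply, smul_eq_mul, ENNReal.toReal_mul, ENNReal.toReal_inv,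
    ENNReal.toReal_natCast]
  have h : ∑ n ∈ A, (Measure.dirac (x n)) (Set.Iic t) = ((A.filter (fun n => x n ≤ t)).card : ℝ≥0∞) := by
    rw [Finset.card_eq_sum_ones, Finset.sum_filter]
    push_cast
    apply Finset.sum_congr rfl
    intro n _
    rw [Measure.dirac_apply' _ measurableSet_Iic]
    simp only [Set.indicator, Set.mem_Iic, Pi.one_apply]
  rw [h, ENNReal.toReal_natCast]
  ring

open Classical in
/-- from exponential sums to the distribution function -/
theorem cdf_of (ε : ℝ) (hε : 0 < ε) : ∃ U δ : ℝ, 0 < U ∧ 0 < δ ∧ ∀ (N : ℕ) (A : Finset ℕ) (x : ℕ → ℝ), A.card ≤ N →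
    (∀ u : ℝ, |u| ≤ U → ‖∑ n ∈ A, Complex.exp (((u * x n : ℝ) : ℂ) * Complex.I) -
      ((A.card * Real.exp (-(u ^ 2) / 2) : ℝ) : ℂ)‖ ≤ δ * N) →
    ∀ t : ℝ, |((A.filter (fun n => x n ≤ t)).card : ℝ) - Phi t * A.card| ≤ ε * N := by
  obtain ⟨U, δ, hU, hδ, h⟩ := inv_unif ε hε
  refine ⟨U, δ * ε, hU, by positivity, fun N A x hA hu t => ?_⟩
  have hAN : (A.card : ℝ) ≤ N := by exact_mod_cast hA
  have hc0 : (0 : ℝ) ≤ A.card := Nat.cast_nonneg _
  have hN0 : (0 : ℝ) ≤ N := Nat.cast_nonneg _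
  rcases le_or_gt (A.card : ℝ) (ε * N) with h1 | h1
  · have h2 : ((A.filter (fun n => x n ≤ t)).card : ℝ) ≤ A.card := by exact_mod_cast Finset.card_filter_le _ _
    have h3 : (0 : ℝ) ≤ ((A.filter (fun n => x n ≤ t)).card : ℝ) := Nat.cast_nonneg _
    have h4 := Phi_nonneg t
    have h5 := Phi_le_one t
    have h6 : 0 ≤ Phi t * A.card := by positivity
    have h7 : Phi t * A.card ≤ A.card := by nlinarith
    rw [abs_le]
    constructor <;> linarith
  · have hcpos : (0 : ℝ) < A.card := lt_of_le_of_lt (by positivity) h1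
    have hne : A.Nonempty := by
      rw [← Finset.card_pos]
      exact_mod_cast hcpos
    haveI := emp_prob A x hne
    have h2 := h ⟨emp A x, emp_prob A x hne⟩ (fun u hu' => by
      change ‖charFun (emp A x) u - _‖ ≤ δ
      rw [emp_char]
      have e1 := hu u hu'
      have hcC : ((A.card : ℝ) : ℂ) ≠ 0 := by
        exact_mod_cast hcpos.ne'
      have e2 : ((A.card : ℝ) : ℂ)⁻¹ * ∑ n ∈ A, Complex.exp (((u * x n : ℝ) : ℂ) * Complex.I) -
          ((Real.exp (-(u ^ 2) / 2) : ℝ) : ℂ) = ((A.card : ℝ) : ℂ)⁻¹ *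
          (∑ n ∈ A, Complex.exp (((u * x n : ℝ) : ℂ) * Complex.I) - ((A.card * Real.exp (-(u ^ 2) / 2) : ℝ) : ℂ)) := by
        rw [mul_sub, Complex.ofReal_mul, ← mul_assoc, inv_mul_cancel₀ hcC, one_mul]
      rw [e2, norm_mul, norm_inv, Complex.norm_real, Real.norm_of_nonneg hc0, inv_mul_le_iff₀ hcpos]
      refine e1.trans ?_
      calc δ * ε * N = (ε * N) * δ := by ring
        _ ≤ A.card * δ := mul_le_mul_of_nonneg_right h1.le hδ.le) t
    change |(emp A x).real (Set.Iic t) - Phi t| ≤ ε at h2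
    rw [emp_real] at h2
    have h3 : ((A.filter (fun n => x n ≤ t)).card : ℝ) - Phi t * A.card =
        A.card * (((A.filter (fun n => x n ≤ t)).card : ℝ) / A.card - Phi t) := by
      field_simp
    rw [h3, abs_mul, abs_of_pos hcpos]
    calc (A.card : ℝ) * |((A.filter (fun n => x n ≤ t)).card : ℝ) / A.card - Phi t| ≤ A.card * ε :=
          mul_le_mul_of_nonneg_left h2 hc0
      _ ≤ N * ε := mul_le_mul_of_nonneg_right hAN hε.le
      _ = _ := mul_comm _ _

open Classical in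
/-- **self-normalised sums** -/
theorem cdf_self (ε : ℝ) (hε : 0 < ε) : ∃ (P M₀ : ℕ) (η : ℝ), 0 < η ∧ 1 ≤ M₀ ∧
    ∀ (m N : ℕ) (A : Finset ℕ), A.card ≤ N → ∀ (a : ℕ → Fin m → ℝ),
      (∀ n ∈ A, ∀ i, a n i = -1 ∨ a n i = 0 ∨ a n i = 1) → (∀ n ∈ A, M₀ ≤ cnt (a n)) →
      (∀ k ≤ 2 * P, ∑ j ∈ Finset.univ.filter (fun j : Fin k → Fin m => OddV j),
        |∑ n ∈ A, (1 / √(cnt (a n) : ℝ)) ^ k * ∏ l, a n (j l)| ≤ η * N) →
      ∀ t : ℝ, |((A.filter (fun n => ∑ i, a n i ≤ t * √(cnt (a n) : ℝ))).card : ℝ) - Phi t * A.card| ≤ ε * N := by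
  obtain ⟨U, δ, hU, hδ, h⟩ := cdf_of ε hε
  obtain ⟨P, η, v₀, hη, hv₀, hdet⟩ := det U δ 1 hU hδ one_pos
  obtain ⟨M₀, hM₀⟩ := exists_nat_ge v₀
  refine ⟨P, M₀, η, hη, by exact_mod_cast hv₀.trans hM₀, fun m N A hA a ha hc herr t => ?_⟩
  have hcpos : ∀ n ∈ A, (0 : ℝ) < cnt (a n) := fun n hn => by
    have h1 : (M₀ : ℝ) ≤ cnt (a n) := by exact_mod_cast hc n hn
    linarith
  have h1 := h N A (fun n => (∑ i, a n i) / √(cnt (a n) : ℝ)) hA (fun u hu => by
    have h2 := hdet m N A hA a (fun n => (cnt (a n) : ℝ)) ha (fun n hn => by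
      refine ⟨hM₀.trans (by exact_mod_cast hc n hn), by rw [one_mul]⟩) herr u hu
    refine le_trans (le_of_eq ?_) h2
    congr 1
    congr 1
    · apply Finset.sum_congr rfl
      intro n _
      congr 3
      ring
    · congr 1
      rw [← nsmul_eq_mul, ← Finset.sum_const]
      apply Finset.sum_congr rfl
      intro n hn
      congr 1
      have := (hcpos n hn).ne'
      field_simp) t
  have h3 : A.filter (fun n => ∑ i, a n i ≤ t * √(cnt (a n) : ℝ)) =
      A.filter (fun n => (∑ i, a n i) / √(cnt (a n) : ℝ) ≤ t) := by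
    apply Finset.filter_congr
    intro n hn
    rw [div_le_iff₀ (Real.sqrt_pos.2 (hcpos n hn))]
  rw [h3]
  exact h1

open Classical in
/-- **sums normalised by a constant** -/
theorem cdf_const (ε c : ℝ) (hε : 0 < ε) (hc0 : 0 < c) : ∃ (P M₀ : ℕ) (η δ' : ℝ), 0 < η ∧ 0 < δ' ∧ 1 ≤ M₀ ∧
    ∀ (m N : ℕ), M₀ ≤ m → ∀ (A : Finset ℕ), A.card ≤ N → ∀ (a : ℕ → Fin m → ℝ),
      (∀ n ∈ A, ∀ i, a n i = -1 ∨ a n i = 0 ∨ a n i = 1) → ∑ n ∈ A, |(cnt (a n) : ℝ) - c * m| ≤ δ' * (m * N) →
      (∀ k ≤ 2 * P, ∑ j ∈ Finset.univ.filter (fun j : Fin k → Fin m => OddV j),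
        |∑ n ∈ A, (1 / √(c * m : ℝ)) ^ k * ∏ l, a n (j l)| ≤ η * N) →
      ∀ t : ℝ, |((A.filter (fun n => ∑ i, a n i ≤ t * √(c * m : ℝ))).card : ℝ) - Phi t * A.card| ≤ ε * N := by
  obtain ⟨U, δ, hU, hδ, h⟩ := cdf_of ε hε
  obtain ⟨P, η, v₀, hη, hv₀, hdet⟩ := det U (δ / 2) (1 / c) hU (by positivity) (by positivity)
  obtain ⟨M₀, hM₀⟩ := exists_nat_ge (v₀ / c + 1)
  refine ⟨P, M₀, η, δ * c / U ^ 2, hη, by positivity, ?_, fun m N hm A hA a ha hconc herr t => ?_⟩
  · have : 0 ≤ v₀ / c := by positivity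
    have h1 : (1 : ℝ) ≤ M₀ := by linarith
    exact_mod_cast h1
  have hmv : v₀ ≤ c * m := by
    have h1 : (M₀ : ℝ) ≤ m := by exact_mod_cast hm
    have h2 : v₀ / c ≤ m := by linarith
    rw [div_le_iff₀ hc0] at h2
    linarith
  have hcm : 0 < c * m := by linarith
  have hm0 : (0 : ℝ) < m := by
    rcases lt_or_ge 0 (m : ℝ) with h1 | h1
    · exact h1
    · nlinarith
  have hN0 : (0 : ℝ) ≤ N := Nat.cast_nonneg _
  have h1 := h N A (fun n => (∑ i, a n i) / √(c * m : ℝ)) hA (fun u hu => by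
    have h2 := hdet m N A hA a (fun _ => c * m) ha (fun n hn => by
      refine ⟨hmv, ?_⟩
      have e1 : (cnt (a n) : ℝ) ≤ m := by
        unfold cnt
        have := Finset.card_filter_le (Finset.univ : Finset (Fin m)) (fun i => a n i ≠ 0)
        rw [Finset.card_univ, Fintype.card_fin] at this
        exact_mod_cast this
      calc (cnt (a n) : ℝ) ≤ m := e1
        _ = 1 / c * (c * m) := by field_simp) herr u hu
    have hu2 : u ^ 2 ≤ U ^ 2 := by
      rw [← sq_abs]
      exact pow_le_pow_left₀ (abs_nonneg _) hu 2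
    have h3 : ‖((∑ n ∈ A, Real.exp (-(u ^ 2 / (2 * (c * m))) * cnt (a n)) : ℝ) : ℂ) -
        ((A.card * Real.exp (-(u ^ 2) / 2) : ℝ) : ℂ)‖ ≤ δ / 2 * N := by
      rw [← Complex.ofReal_sub, Complex.norm_real, Real.norm_eq_abs, ← nsmul_eq_mul, ← Finset.sum_const,
        ← Finset.sum_sub_distrib]
      refine (Finset.abs_sum_le_sum_abs _ _).trans ?_
      have e1 : ∀ n ∈ A, |Real.exp (-(u ^ 2 / (2 * (c * m))) * cnt (a n)) - Real.exp (-(u ^ 2) / 2)| ≤
          U ^ 2 / (2 * (c * m)) * |(cnt (a n) : ℝ) - c * m| := by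
        intro n _
        have e2 : ∀ x y : ℝ, x ≤ 0 → y ≤ 0 → |Real.exp x - Real.exp y| ≤ |x - y| := by
          have e3 : ∀ x y : ℝ, x ≤ y → y ≤ 0 → Real.exp y - Real.exp x ≤ y - x := by
            intro x y hxy hy
            have e4 : Real.exp y - Real.exp x = Real.exp y * (1 - Real.exp (x - y)) := by
              rw [mul_sub, mul_one, ← Real.exp_add]
              congr 2
              ring
            have e5 : 1 - Real.exp (x - y) ≤ y - x := by
              have := Real.add_one_le_exp (x - y)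
              linarith
            have e6 : 0 ≤ 1 - Real.exp (x - y) := by
              have : Real.exp (x - y) ≤ 1 := Real.exp_le_one_iff.2 (by linarith)
              linarith
            have e7 : Real.exp y ≤ 1 := Real.exp_le_one_iff.2 hy
            rw [e4]
            calc _ ≤ 1 * (1 - Real.exp (x - y)) := mul_le_mul_of_nonneg_right e7 e6
              _ ≤ _ := by linarith
          intro x y hx hy
          rcases le_total x y with h | h
          · have := e3 x y h hy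
            rw [abs_sub_comm, abs_of_nonneg (by have := Real.exp_le_exp.2 h; linarith), abs_sub_comm, abs_of_nonneg (by linarith)]
            exact this
          · have := e3 y x h hx
            rw [abs_of_nonneg (by have := Real.exp_le_exp.2 h; linarith), abs_of_nonneg (by linarith)]
            exact this
        refine (e2 _ _ ?_ ?_).trans ?_
        · have : 0 ≤ u ^ 2 / (2 * (c * m)) * (cnt (a n) : ℝ) := by positivity
          linarith
        · have : 0 ≤ u ^ 2 := sq_nonneg u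
          linarith
        · have e3 : -(u ^ 2 / (2 * (c * m))) * (cnt (a n) : ℝ) - -(u ^ 2) / 2 =
              -(u ^ 2 / (2 * (c * m)) * ((cnt (a n) : ℝ) - c * m)) := by
            field_simp
            ring
          rw [e3, abs_neg, abs_mul, abs_of_nonneg (by positivity : 0 ≤ u ^ 2 / (2 * (c * m)))]
          apply mul_le_mul_of_nonneg_right _ (abs_nonneg _)
          exact div_le_div_of_nonneg_right hu2 (by positivity)
      refine (Finset.sum_le_sum e1).trans ?_
      rw [← Finset.mul_sum]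
      calc U ^ 2 / (2 * (c * m)) * ∑ n ∈ A, |(cnt (a n) : ℝ) - c * m| ≤
          U ^ 2 / (2 * (c * m)) * (δ * c / U ^ 2 * (m * N)) := mul_le_mul_of_nonneg_left hconc (by positivity)
        _ = δ / 2 * N := by field_simp
    have e1 : ∑ n ∈ A, Complex.exp (((u * ((∑ i, a n i) / √(c * m : ℝ)) : ℝ) : ℂ) * Complex.I) =
        ∑ n ∈ A, Complex.exp (((u / √(c * m : ℝ) * ∑ i, a n i : ℝ) : ℂ) * Complex.I) := by
      apply Finset.sum_congr rfl
      intro n _
      congr 3
      ring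
    have e2 := norm_sub_le_norm_sub_add_norm_sub
      (∑ n ∈ A, Complex.exp (((u / √(c * m : ℝ) * ∑ i, a n i : ℝ) : ℂ) * Complex.I))
      ((∑ n ∈ A, Real.exp (-(u ^ 2 / (2 * (c * m))) * cnt (a n)) : ℝ) : ℂ)
      ((A.card * Real.exp (-(u ^ 2) / 2) : ℝ) : ℂ)
    rw [e1]
    refine e2.trans ?_
    have e3 : δ / 2 * N + δ / 2 * N = δ * N := by ring
    linarith) t
  have h3 : A.filter (fun n => ∑ i, a n i ≤ t * √(c * m : ℝ)) =
      A.filter (fun n => (∑ i, a n i) / √(c * m : ℝ) ≤ t) := by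
    apply Finset.filter_congr
    intro n hn
    rw [div_le_iff₀ (Real.sqrt_pos.2 hcm)]
  rw [h3]
  exact h1

end Pool.Agent.Run7.h20.GM
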