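import Mathlib

/-!
# From characteristic functions near `exp (- u ^ 2 / 2)` to the distribution function, uniformly
-/

set_option autoImplicit false

namespace Pool.Agent.Run7.h20.GM

open MeasureTheory ProbabilityTheory Filter Topology Set

/-- the distribution function of the standard normal law -/
noncomputable def Phi (t : ℝ) : ℝ := (Real.sqrt (2 * Real.pi))⁻¹ * ∫ x in Iic t, Real.exp (-(x ^ 2) / 2)

lemma Phi_eq (t : ℝ) : Phi t = (gaussianReal 0 1).real (Iic t) := by
  rw [Measure.real, gaussianReal_apply_eq_integral 0 one_ne_zero]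
  rw [ENNReal.toReal_ofReal (integral_nonneg fun x => gaussianPDFReal_nonneg _ _ _)]
  unfold Phi
  rw [← integral_const_mul]
  apply integral_congr_ae
  refine Eventually.of_forall fun x => ?_
  simp only [gaussianPDFReal, NNReal.coe_one, mul_one, sub_zero]

lemma Phi_mono : Monotone Phi := by
  intro s t hst
  rw [Phi_eq, Phi_eq]
  exact measureReal_mono (Iic_subset_Iic.2 hst)

lemma Phi_nonneg (t : ℝ) : 0 ≤ Phi t := by
  rw [Phi_eq]
  exact measureReal_nonneg

lemma Phi_le_one (t : ℝ) : Phi t ≤ 1 := by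
  rw [Phi_eq]
  exact measureReal_le_one

lemma Phi_cdf (t : ℝ) : Phi t = cdf (gaussianReal 0 1) t := by
  rw [Phi_eq, cdf_eq_real]

lemma Phi_lip (s t : ℝ) (hst : s ≤ t) : Phi t - Phi s ≤ t - s := by
  have h1 : (gaussianReal 0 1).real (Iic t) - (gaussianReal 0 1).real (Iic s) = (gaussianReal 0 1).real (Ioc s t) := by
    have h2 : Iic t = Iic s ∪ Ioc s t := by
      ext x
      simp only [mem_Iic, mem_union, mem_Ioc]
      constructor
      · intro h
        rcases le_or_gt x s with h3 | h3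
        · exact Or.inl h3
        · exact Or.inr ⟨h3, h⟩
      · rintro (h | h)
        · exact h.trans hst
        · exact h.2
    rw [h2, measureReal_union _ measurableSet_Ioc]
    · ring
    · rw [Set.disjoint_left]
      intro x hx hx2
      exact absurd hx (not_le.2 hx2.1)
  rw [Phi_eq, Phi_eq, h1, Measure.real, gaussianReal_apply_eq_integral 0 one_ne_zero]
  rw [ENNReal.toReal_ofReal (integral_nonneg fun x => gaussianPDFReal_nonneg _ _ _)]
  have h3 : ∀ x : ℝ, gaussianPDFReal 0 1 x ≤ 1 := by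
    intro x
    simp only [gaussianPDFReal, NNReal.coe_one, mul_one, sub_zero]
    have h4 : (Real.sqrt (2 * Real.pi))⁻¹ ≤ 1 := by
      apply inv_le_one_of_one_le₀
      rw [Real.one_le_sqrt]
      have := Real.pi_gt_three
      linarith
    have h5 : Real.exp (-(x ^ 2) / 2) ≤ 1 := by
      rw [Real.exp_le_one_iff]
      nlinarith [sq_nonneg x]
    calc _ ≤ 1 * (1 : ℝ) := mul_le_mul h4 h5 (Real.exp_pos _).le (by norm_num)
      _ = 1 := one_mul _
  calc ∫ x in Ioc s t, gaussianPDFReal 0 1 x ≤ ∫ x in Ioc s t, (1 : ℝ) := by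
        apply integral_mono_of_nonneg
        · exact Eventually.of_forall fun x => gaussianPDFReal_nonneg _ _ _
        · exact integrable_const _
        · exact Eventually.of_forall fun x => h3 x
    _ = t - s := by
        rw [integral_const]
        simp [Measure.real, hst]

/-- pointwise version -/
lemma inv_pt (t ε : ℝ) (hε : 0 < ε) : ∃ U δ : ℝ, 0 < U ∧ 0 < δ ∧ ∀ ν : ProbabilityMeasure ℝ,
    (∀ u : ℝ, |u| ≤ U → ‖charFun (ν : Measure ℝ) u - ((Real.exp (-(u ^ 2) / 2) : ℝ) : ℂ)‖ ≤ δ) →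
    |(ν : Measure ℝ).real (Iic t) - Phi t| ≤ ε := by
  by_contra hcon
  push Not at hcon
  choose ν h1 h2 using fun j : ℕ => hcon ((j : ℝ) + 1) (1 / ((j : ℝ) + 1)) (by positivity) (by positivity)
  let γ : ProbabilityMeasure ℝ := ⟨gaussianReal 0 1, inferInstance⟩
  have hlim : Tendsto ν atTop (𝓝 γ) := by
    apply ProbabilityMeasure.tendsto_of_tendsto_charFun
    intro u
    have e1 : charFun (γ : Measure ℝ) u = ((Real.exp (-(u ^ 2) / 2) : ℝ) : ℂ) := by
      change charFun (gaussianReal 0 1) u = _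
      rw [charFun_gaussianReal]
      push_cast
      congr 1
      ring
    rw [e1, tendsto_iff_norm_sub_tendsto_zero]
    have h3 : Tendsto (fun j : ℕ => 1 / ((j : ℝ) + 1)) atTop (𝓝 0) := tendsto_one_div_add_atTop_nhds_zero_nat
    obtain ⟨J, hJ⟩ := exists_nat_ge |u|
    refine squeeze_zero' (Eventually.of_forall fun _ => norm_nonneg _) ?_ h3
    filter_upwards [eventually_ge_atTop J] with j hj
    apply h1 j u
    have : (J : ℝ) ≤ j := by exact_mod_cast hj
    linarith
  have h4 := ProbabilityMeasure.tendsto_measure_of_null_frontier_of_tendsto' hlim (E := Iic t) (by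
    change (gaussianReal 0 1) (frontier (Iic t)) = 0
    rw [frontier_Iic]
    haveI : NullSingletonClass (gaussianReal 0 1) := nullSingletonClass_gaussianReal one_ne_zero
    exact measure_singleton t)
  have h5 : Tendsto (fun j => (ν j : Measure ℝ).real (Iic t)) atTop (𝓝 (Phi t)) := by
    rw [Phi_eq]
    exact (ENNReal.tendsto_toReal (measure_ne_top _ _)).comp h4
  have h6 := (tendsto_iff_norm_sub_tendsto_zero.1 h5).eventually (gt_mem_nhds hε)
  obtain ⟨j, hj⟩ := h6.exists
  have h7 := h2 j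
  rw [Real.norm_eq_abs] at hj
  linarith

/-- **uniform version** -/
theorem inv_unif (ε : ℝ) (hε : 0 < ε) : ∃ U δ : ℝ, 0 < U ∧ 0 < δ ∧ ∀ ν : ProbabilityMeasure ℝ,
    (∀ u : ℝ, |u| ≤ U → ‖charFun (ν : Measure ℝ) u - ((Real.exp (-(u ^ 2) / 2) : ℝ) : ℂ)‖ ≤ δ) →
    ∀ t : ℝ, |(ν : Measure ℝ).real (Iic t) - Phi t| ≤ ε := by
  classical
  -- the two ends
  have hb : ∃ a : ℝ, Phi a ≤ ε / 2 := by
    have h1 := tendsto_cdf_atBot (gaussianReal 0 1)
    obtain ⟨a, ha⟩ := (h1.eventually (gt_mem_nhds (show (0 : ℝ) < ε / 2 by positivity))).exists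
    exact ⟨a, by rw [Phi_cdf]; exact ha.le⟩
  have ht : ∃ b : ℝ, 1 - ε / 2 ≤ Phi b := by
    have h1 := tendsto_cdf_atTop (gaussianReal 0 1)
    obtain ⟨b, hb⟩ := (h1.eventually (lt_mem_nhds (show 1 - ε / 2 < (1 : ℝ) by linarith))).exists
    exact ⟨b, by rw [Phi_cdf]; exact hb.le⟩
  obtain ⟨a, ha⟩ := hb
  obtain ⟨b, hb⟩ := ht
  obtain ⟨K, hK⟩ := exists_nat_ge ((b - a) / (ε / 2))
  obtain ⟨g, hg⟩ : ∃ g : ℕ → ℝ, ∀ i, g i = a + i * (ε / 2) := ⟨_, fun _ => rfl⟩
  have hgK : b ≤ g K := by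
    rw [hg]
    rw [div_le_iff₀ (by positivity)] at hK
    linarith
  choose U δ hU hδ h using fun i : ℕ => inv_pt (g i) (ε / 2) (by positivity)
  obtain ⟨U', hU'⟩ : ∃ U', U' = ∑ i ∈ Finset.range (K + 1), U i := ⟨_, rfl⟩
  have hU1 : ∀ i ∈ Finset.range (K + 1), U i ≤ U' := by
    intro i hi
    rw [hU']
    exact Finset.single_le_sum (fun j _ => (hU j).le) hi
  have hU0 : 0 < U' := lt_of_lt_of_le (hU 0) (hU1 0 (by simp))
  have hne : (Finset.range (K + 1)).Nonempty := ⟨0, by simp⟩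
  obtain ⟨δ', hδ'⟩ : ∃ δ', δ' = (Finset.range (K + 1)).inf' hne δ := ⟨_, rfl⟩
  have hδ1 : ∀ i ∈ Finset.range (K + 1), δ' ≤ δ i := by
    intro i hi
    rw [hδ']
    exact Finset.inf'_le _ hi
  have hδ0 : 0 < δ' := by
    rw [hδ']
    exact (Finset.lt_inf'_iff hne).2 fun i _ => hδ i
  refine ⟨U', δ', hU0, hδ0, fun ν hν t => ?_⟩
  have hgrid : ∀ i ∈ Finset.range (K + 1), |(ν : Measure ℝ).real (Iic (g i)) - Phi (g i)| ≤ ε / 2 := by
    intro i hi
    exact h i ν fun u hu => (hν u (hu.trans (hU1 i hi))).trans (hδ1 i hi)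
  have hmono : ∀ s s' : ℝ, s ≤ s' → (ν : Measure ℝ).real (Iic s) ≤ (ν : Measure ℝ).real (Iic s') :=
    fun s s' hs => measureReal_mono (Iic_subset_Iic.2 hs)
  have hν0 : 0 ≤ (ν : Measure ℝ).real (Iic t) := measureReal_nonneg
  have hν1 : (ν : Measure ℝ).real (Iic t) ≤ 1 := measureReal_le_one
  have hP0 := Phi_nonneg t
  have hP1 := Phi_le_one t
  rcases lt_or_ge t (g 0) with h1 | h1
  · have h2 := hgrid 0 (by simp)
    have h3 := hmono t (g 0) h1.le
    have h4 : Phi (g 0) ≤ ε / 2 := by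
      rw [hg]
      simpa using ha
    have h5 := Phi_mono h1.le
    rw [abs_le] at h2 ⊢
    constructor <;> linarith
  rcases le_or_gt (g K) t with h2 | h2
  · have h3 := hgrid K (by simp)
    have h4 := hmono (g K) t h2
    have h5 : 1 - ε / 2 ≤ Phi (g K) := hb.trans (Phi_mono hgK)
    have h6 := Phi_mono h2
    rw [abs_le] at h3 ⊢
    constructor <;> linarith
  · obtain ⟨i, hi1, hi2, hi3⟩ : ∃ i : ℕ, i + 1 ≤ K ∧ g i ≤ t ∧ t ≤ g (i + 1) := by
      obtain ⟨i, hi⟩ : ∃ i, i = ⌊(t - a) / (ε / 2)⌋₊ := ⟨_, rfl⟩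
      have h3 : 0 ≤ (t - a) / (ε / 2) := by
        apply div_nonneg _ (by positivity)
        rw [hg] at h1
        simp at h1
        linarith
      have h4 : (i : ℝ) ≤ (t - a) / (ε / 2) := by rw [hi]; exact Nat.floor_le h3
      have h5 : (t - a) / (ε / 2) < i + 1 := by rw [hi]; exact Nat.lt_floor_add_one _
      rw [le_div_iff₀ (by positivity)] at h4
      rw [div_lt_iff₀ (by positivity)] at h5
      refine ⟨i, ?_, ?_, ?_⟩
      · by_contra hcon
        have h6 : (K : ℝ) ≤ i := by exact_mod_cast (by omega : K ≤ i)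
        rw [hg] at h2
        have h7 : (K : ℝ) * (ε / 2) ≤ i * (ε / 2) := mul_le_mul_of_nonneg_right h6 (by positivity)
        linarith
      · rw [hg]
        linarith
      · rw [hg]
        push_cast
        linarith
    have h3 := hgrid i (by rw [Finset.mem_range]; omega)
    have h4 := hgrid (i + 1) (by rw [Finset.mem_range]; omega)
    have h5 := hmono _ _ hi2
    have h6 := hmono _ _ hi3
    have h7 := Phi_mono hi2
    have h8 := Phi_mono hi3
    have h9 : Phi (g (i + 1)) - Phi (g i) ≤ ε / 2 := by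
      refine (Phi_lip _ _ (hi2.trans hi3)).trans (le_of_eq ?_)
      rw [hg, hg]
      push_cast
      ring
    rw [abs_le] at h3 h4 ⊢
    constructor <;> linarith

end Pool.Agent.Run7.h20.GM
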