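import Pool.Agent.Run7.h20.MK.Ms
import Pool.Agent.Run7.h20.MK.Tup
import Pool.Agent.Run7.h794.MK.AllM

/-!
# The one-shift law for bounded functions, laws of nearly minimal energy
-/

set_option autoImplicit false

namespace Pool.Agent.Run7.h20.GM

open Finset
open Pool.Agent.H373R2.T7 (ev_L')
open Pool.Agent.Run7.h794.MK
open Pool.Agent.Run7.h20.MK
open Pool.Agent.Run7.h27.MK (gI)

/-- the one-shift law for laws of nearly minimal energy -/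
theorem law_g {g : ℕ → ℝ} (hL : S_LAWg g) (r A B U : ℕ) : ∃ C N₀ : ℕ, ∀ N : ℕ, N₀ ≤ N →
    ∀ (ι : Type) (Ω : Finset ι) (p : ι → ℝ) (Yv : ι → ℤ), (∀ ω ∈ Ω, 0 ≤ p ω) → ∑ ω ∈ Ω, p ω ≤ 1 →
    (∀ ω ∈ Ω, |Yv ω| ≤ B * N) → ∀ (a : ℤ) (W : ℕ), (N : ℝ) ^ (1 / 3 : ℝ) * Real.log N ^ C ≤ W → W ≤ (B + 1) * N →
    (∀ ω ∈ Ω, |Yv ω - a| ≤ W) → (W : ℝ) * En r Ω p Yv ≤ Real.log N ^ A →
    ∀ Kc : ℝ, 0 < Kc → ∀ G : ℕ → ℝ, (∀ n ∈ Icc 1 N, |G n| ≤ Kc) →
    ∑ ω ∈ Ω, p ω * |∑ n ∈ Icc 1 N, G n * gI g ((n : ℤ) + Yv ω)| ≤ Kc * (N / Real.log N ^ U) := by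
  obtain ⟨B', hB'⟩ : ∃ B', B' = (r + 1) * (B + 1) := ⟨_, rfl⟩
  obtain ⟨V, hV⟩ := hL B' U
  obtain ⟨T, hT⟩ : ∃ T, T = A + (2 * r + 1) * V + 1 := ⟨_, rfl⟩
  obtain ⟨C, N1, h1⟩ := hV T 0
  obtain ⟨N2, h2⟩ := ev_L' (56 * 4 ^ r + 2)
  refine ⟨C, N1 + N2 + 2 * (B' + 2) + 3, fun N hN ι Ω p Yv hp hp1 hY a W hW1 hW2 hYa hen Kc hKc G hG => ?_⟩
  have hLL := h2 N (by omega)
  have hmain := h1 N (by omega)
  obtain ⟨L, hLdef⟩ : ∃ L, L = Real.log (N : ℝ) := ⟨_, rfl⟩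
  rw [← hLdef] at hLL hmain hW1 hen ⊢
  have hk4 : (0 : ℝ) ≤ 56 * 4 ^ r := by positivity
  have hL1 : 1 ≤ L := by linarith
  have hL0 : 0 < L := by linarith
  have hN1 : 1 ≤ N := by omega
  have hN0 : (0 : ℝ) < N := by exact_mod_cast hN1
  obtain ⟨M, hM⟩ : ∃ M, M = 2 * (B' + 2) * N := ⟨_, rfl⟩
  have hBN : 1 ≤ (B + 1) * N := Nat.mul_pos (by omega) hN1
  have hM1 : 1 ≤ M := by
    rw [hM]
    exact Nat.mul_pos (by omega) hN1
  have hMN : M ≤ N ^ 2 := by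
    rw [hM, pow_two]
    exact Nat.mul_le_mul_right _ (by omega)
  have hWM : 2 * (r * W) < M := by
    have q1 : 2 * (r * W) ≤ 2 * (r * ((B + 1) * N)) := Nat.mul_le_mul_left _ (Nat.mul_le_mul_left _ hW2)
    have q2 : 2 * (r * ((B + 1) * N)) = (2 * r) * ((B + 1) * N) := by ring
    have q3 : (2 * r) * ((B + 1) * N) < (2 * (r + 1)) * ((B + 1) * N) := Nat.mul_lt_mul_of_pos_right (by omega) hBN
    have q4 : (2 * (r + 1)) * ((B + 1) * N) = 2 * B' * N := by rw [hB']; ring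
    have q5 : 2 * B' * N ≤ M := by
      rw [hM]
      exact Nat.mul_le_mul_right _ (by omega)
    omega
  have hWpos : 1 ≤ W := by
    have h2 : (0 : ℝ) < W := lt_of_lt_of_le (by positivity) hW1
    exact_mod_cast h2
  obtain ⟨Γ, hΓ1, hΓ2⟩ := cover r Ω p Yv M hM1 a (W : ℝ) (by exact_mod_cast hWpos) hp hp1 (by
    intro ω hω
    have := hYa ω hω
    rw [← Int.cast_abs]
    exact_mod_cast this) (En_dvd r Ω Yv M a W hYa hWM) (1 / L ^ V) (by positivity) (by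
      rw [div_le_one (by positivity)]
      exact one_le_pow₀ hL1)
  have hcard : (Γ.card : ℝ) ≤ L ^ T := card_arcs r A V T L hL1 (by linarith) hT _ _ hΓ1 hen
  apply hmain M (by rw [hM]) hMN ι Ω p Yv hp hp1 (fun ω hω => ?_) W hW1 Γ hcard (fun t ht => ?_) Kc hKc G hG
  · refine (hY ω hω).trans ?_
    have h5 : B * N ≤ B' * N := by
      apply Nat.mul_le_mul_right
      rw [hB']
      nlinarith
    exact_mod_cast h5
  · by_contra hcon
    push Not at hcon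
    obtain ⟨γ, hγ, k, hk⟩ := hΓ2 t hcon
    have h5 := ht γ hγ k
    rw [pow_zero, one_mul] at h5
    linarith

/-- the Moebius function on the integers -/
noncomputable def mobI (x : ℤ) : ℝ := gI mob x

lemma mobI_val (x : ℤ) : mobI x = -1 ∨ mobI x = 0 ∨ mobI x = 1 := by
  unfold mobI gI mob
  split_ifs
  · have h := ArithmeticFunction.abs_moebius_le_one (n := x.toNat)
    obtain ⟨a, ha⟩ : ∃ a, a = ArithmeticFunction.moebius x.toNat := ⟨_, rfl⟩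
    rw [← ha] at h ⊢
    rw [abs_le] at h
    obtain ⟨h1, h2⟩ := h
    interval_cases a
    · left; norm_num
    · right; left; norm_num
    · right; right; norm_num
  · right; left; rfl

/-- sets of natural numbers of nearly minimal energy, in the form used by `exc` -/
theorem mob_set (r A B U : ℕ) : ∃ C N₀ : ℕ, ∀ N : ℕ, N₀ ≤ N → ∀ S : Finset ℕ, S.Nonempty → ∀ a H : ℕ,
    (N : ℝ) ^ (1 / 3 : ℝ) * Real.log N ^ C ≤ H → a + H ≤ B * N → (∀ s ∈ S, a ≤ s ∧ s ≤ a + H) →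
    (H : ℝ) * energyS r S ≤ Real.log N ^ A * (S.card : ℝ) ^ (2 * r) →
    ∀ G : ℕ → ℝ, (∀ n ∈ Icc 1 N, |G n| ≤ 1) →
      ∑ s ∈ S, |∑ n ∈ Icc 1 N, G n * mobI ((n : ℤ) + (s : ℤ))| ≤ 1 / Real.log N ^ U * N * S.card := by
  obtain ⟨C, N₀, h⟩ := law_g law_mob r A B U
  refine ⟨C, N₀, fun N hN S hS a H hH haH hS2 hen G hG => ?_⟩
  have hc : (0 : ℝ) < S.card := by exact_mod_cast hS.card_pos
  have h1 := h N hN ℕ S (fun _ => 1 / (S.card : ℝ)) (fun v => (v : ℤ)) (fun _ _ => by positivity) (by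
    rw [sum_const, nsmul_eq_mul]
    field_simp
    exact le_rfl) (fun s hs => by
    have := (hS2 s hs).2
    rw [abs_of_nonneg (Int.natCast_nonneg s)]
    exact_mod_cast this.trans haH) a H hH (by
    have : B * N ≤ (B + 1) * N := Nat.mul_le_mul_right _ (by omega)
    omega) (fun s hs => by
    obtain ⟨e1, e2⟩ := hS2 s hs
    rw [abs_le]
    constructor <;> omega) (by
    rw [En_unif, mul_div_assoc', div_le_iff₀ (by positivity)]
    exact hen) 1 one_pos G hG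
  rw [← mul_sum] at h1
  have h2 : ∑ s ∈ S, |∑ n ∈ Icc 1 N, G n * mobI ((n : ℤ) + (s : ℤ))| =
      (S.card : ℝ) * (1 / (S.card : ℝ) * ∑ s ∈ S, |∑ n ∈ Icc 1 N, G n * gI mob ((n : ℤ) + (s : ℤ))|) := by
    field_simp
    rfl
  rw [h2]
  calc _ ≤ (S.card : ℝ) * (1 * (N / Real.log N ^ U)) := mul_le_mul_of_nonneg_left h1 hc.le
    _ = _ := by ring

end Pool.Agent.Run7.h20.GM
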